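import Pool.Agent.Helper35.AM.Basic

/-!
# AM-AV: averages over boxes and truncation (project NI, MP_0f6f3f_an)

PROOFS IN WORDS.
* `avg_dist`: triangle inequality, exchange the sums.
* `avg_shift`: for functions `F : Z -> R` and an integer `a` the difference `sum_(i<M) F(i+a) - sum_(i<M) F(i)` is a sum of at
  most `2|a|` terms `+-F(i)` (intervals `[a, M+a)` and `[0, M)`; by induction on `|a|` each unit shift changes the sum by
  `F(M+a) - F(a)`). Shift first in `i`, then in `j`. With `0 <= P i j g` and `sum_g P i j g <= 1` each unit shift of the box in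
  one of the two directions has l1 distance at most `2 M / M^2 = 2/M`. So induct on `|a|`, `|b|` using `Dist.trans`
  (unit shift lemma: `Dist (avg M (fun i j => P (i+1) j)) (avg M P) (2/M)`, apply it to shifted `P`).
* `trunc_dist`: with `m = sum_S P` in `[1-e, 1]`: `sum_s |trunc - P| <= sum_(S) (P/m - P) + sum_(s \ S) P <= (1 - m) + (1 - m)`.
* `trunc_close`: with `m = sum_S P, m' = sum_S Q >= 1/2`:
  `|P/m - Q/m'| <= |P - Q|/m + Q |1/m - 1/m'| = |P - Q|/m + (Q/m') |m' - m|/m`, sum over `S`: `<= 2 e + 2 e`.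
-/

open Finset Matrix

namespace Pool.Agent.Helper35.AM

variable {G : Type*}

/-- Average over the box `[0,M) x [0,M)`. -/
noncomputable def avg (M : ℕ) (P : ℤ → ℤ → G → ℝ) (g : G) : ℝ :=
  (∑ i ∈ range M, ∑ j ∈ range M, P i j g) / (M : ℝ) ^ 2

theorem avg_nonneg (M : ℕ) {P : ℤ → ℤ → G → ℝ} (h0 : ∀ i j g, 0 ≤ P i j g) (g : G) : 0 ≤ avg M P g := by
  unfold avg
  exact div_nonneg (Finset.sum_nonneg fun i _ => Finset.sum_nonneg fun j _ => h0 _ _ _) (by positivity)

theorem avg_hasSum {M : ℕ} (hM : 1 ≤ M) {P : ℤ → ℤ → G → ℝ} (h : ∀ i j, HasSum (P i j) 1) :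
    HasSum (avg M P) 1 := by
  have hM0 : (0 : ℝ) < M := by exact_mod_cast hM
  have h1 : HasSum (fun g => ∑ i ∈ range M, ∑ j ∈ range M, P i j g) (∑ i ∈ range M, ∑ j ∈ range M, (1 : ℝ)) :=
    hasSum_sum fun i _ => hasSum_sum fun j _ => h _ _
  have h2 := h1.div_const ((M : ℝ) ^ 2)
  have h3 : (∑ i ∈ range M, ∑ j ∈ range M, (1 : ℝ)) / (M : ℝ) ^ 2 = 1 := by
    rw [div_eq_one_iff_eq (by positivity)]
    simp only [Finset.sum_const, Finset.card_range, nsmul_eq_mul, mul_one]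
    ring
  rw [h3] at h2
  exact h2

private theorem h27_abs (M : ℕ) (P Q : ℤ → ℤ → G → ℝ) (g : G) :
    |avg M P g - avg M Q g| ≤ (∑ i ∈ range M, ∑ j ∈ range M, |P i j g - Q i j g|) / (M : ℝ) ^ 2 := by
  unfold avg
  rw [← sub_div, abs_div, abs_of_nonneg (by positivity : (0 : ℝ) ≤ (M : ℝ) ^ 2)]
  refine div_le_div_of_nonneg_right ?_ (by positivity)
  rw [← Finset.sum_sub_distrib]
  refine (Finset.abs_sum_le_sum_abs _ _).trans (Finset.sum_le_sum fun i _ => ?_)
  rw [← Finset.sum_sub_distrib]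
  exact Finset.abs_sum_le_sum_abs _ _

theorem avg_dist {M : ℕ} (hM : 1 ≤ M) {P Q : ℤ → ℤ → G → ℝ} {e : ℝ}
    (h : ∀ i j : ℕ, i < M → j < M → Dist (P i j) (Q i j) e) : Dist (avg M P) (avg M Q) e := by
  have hM0 : (0 : ℝ) < M := by exact_mod_cast hM
  intro s
  refine (Finset.sum_le_sum fun t _ => h27_abs M P Q t).trans ?_
  rw [← Finset.sum_div, div_le_iff₀ (by positivity), Finset.sum_comm]
  calc ∑ i ∈ range M, ∑ t ∈ s, ∑ j ∈ range M, |P i j t - Q i j t|
      = ∑ i ∈ range M, ∑ j ∈ range M, ∑ t ∈ s, |P i j t - Q i j t| :=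
        Finset.sum_congr rfl fun i _ => Finset.sum_comm
    _ ≤ ∑ i ∈ range M, ∑ j ∈ range M, e :=
        Finset.sum_le_sum fun i hi => Finset.sum_le_sum fun j hj =>
          h i j (Finset.mem_range.1 hi) (Finset.mem_range.1 hj) s
    _ = e * (M : ℝ) ^ 2 := by
        simp only [Finset.sum_const, Finset.card_range, nsmul_eq_mul]
        ring

private theorem h27_unit {M : ℕ} (hM : 1 ≤ M) {P : ℤ → ℤ → G → ℝ} (h0 : ∀ i j g, 0 ≤ P i j g)
    (h1 : ∀ i j (s : Finset G), ∑ g ∈ s, P i j g ≤ 1) :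
    Dist (avg M (fun i j => P (i + 1) j)) (avg M P) (2 / M) := by
  have hM0 : (0 : ℝ) < M := by exact_mod_cast hM
  intro s
  have h2 : ∀ t, avg M (fun i j => P (i + 1) j) t - avg M P t =
      (∑ j ∈ range M, (P M j t - P 0 j t)) / (M : ℝ) ^ 2 := by
    intro t
    unfold avg
    rw [← sub_div]
    congr 1
    rw [← Finset.sum_sub_distrib, Finset.sum_congr rfl fun i _ => (Finset.sum_sub_distrib _ _).symm,
      Finset.sum_comm]
    refine Finset.sum_congr rfl fun j _ => ?_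
    have h3 := Finset.sum_range_sub (fun i : ℕ => P i j t) M
    push_cast at h3
    exact h3
  have h4 : ∀ t, |avg M (fun i j => P (i + 1) j) t - avg M P t| ≤
      (∑ j ∈ range M, (P M j t + P 0 j t)) / (M : ℝ) ^ 2 := by
    intro t
    rw [h2, abs_div, abs_of_nonneg (by positivity : (0 : ℝ) ≤ (M : ℝ) ^ 2)]
    refine div_le_div_of_nonneg_right ?_ (by positivity)
    refine (Finset.abs_sum_le_sum_abs _ _).trans (Finset.sum_le_sum fun j _ => ?_)
    have ha := h0 M j t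
    have hb := h0 0 j t
    rw [abs_le]
    constructor <;> linarith
  refine (Finset.sum_le_sum fun t _ => h4 t).trans ?_
  rw [← Finset.sum_div, Finset.sum_comm, div_le_iff₀ (by positivity)]
  calc ∑ j ∈ range M, ∑ t ∈ s, (P M j t + P 0 j t) ≤ ∑ j ∈ range M, (2 : ℝ) := by
        refine Finset.sum_le_sum fun j _ => ?_
        rw [Finset.sum_add_distrib]
        have ha := h1 M j s
        have hb := h1 0 j s
        linarith
    _ = 2 / M * (M : ℝ) ^ 2 := by
        simp only [Finset.sum_const, Finset.card_range, nsmul_eq_mul]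
        field_simp

private theorem h27_nat {M : ℕ} (hM : 1 ≤ M) {P : ℤ → ℤ → G → ℝ} (h0 : ∀ i j g, 0 ≤ P i j g)
    (h1 : ∀ i j (s : Finset G), ∑ g ∈ s, P i j g ≤ 1) (n : ℕ) :
    Dist (avg M (fun i j => P (i + n) j)) (avg M P) (2 * n / M) := by
  induction n with
  | zero => simpa using Dist.refl (avg M P)
  | succ n ih =>
    have h2 := h27_unit hM (P := fun i j => P (i + n) j) (fun i j g => h0 _ _ _) (fun i j s => h1 _ _ _)
    have h3 := h2.trans ih
    have e1 : (fun (i j : ℤ) => (fun (i j : ℤ) => P (i + n) j) (i + 1) j) = fun (i j : ℤ) => P (i + ((n + 1 : ℕ) : ℤ)) j := by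
      funext i j
      have e2 : i + 1 + (n : ℤ) = i + ((n + 1 : ℕ) : ℤ) := by push_cast; ring
      show P (i + 1 + (n : ℤ)) j = _
      rw [e2]
    rw [e1] at h3
    refine h3.mono (le_of_eq ?_)
    push_cast
    ring

private theorem h27_int {M : ℕ} (hM : 1 ≤ M) {P : ℤ → ℤ → G → ℝ} (h0 : ∀ i j g, 0 ≤ P i j g)
    (h1 : ∀ i j (s : Finset G), ∑ g ∈ s, P i j g ≤ 1) (a : ℤ) :
    Dist (avg M (fun i j => P (i + a) j)) (avg M P) (2 * |(a : ℝ)| / M) := by
  obtain ⟨n, rfl | rfl⟩ := a.eq_nat_or_neg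
  · have := h27_nat hM h0 h1 n
    simpa using this
  · have h2 := (h27_nat hM (P := fun i j => P (i + -(n : ℤ)) j) (fun i j g => h0 _ _ _) (fun i j s => h1 _ _ _) n).symm
    have e1 : (fun (i j : ℤ) => (fun (i j : ℤ) => P (i + -(n : ℤ)) j) (i + (n : ℤ)) j) = P := by
      funext i j
      simp
    rw [e1] at h2
    refine h2.mono (le_of_eq ?_)
    simp

private theorem h27_swap (M : ℕ) (P : ℤ → ℤ → G → ℝ) : avg M (fun i j => P j i) = avg M P := by
  funext g
  unfold avg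
  rw [Finset.sum_comm]

theorem avg_shift {M : ℕ} (hM : 1 ≤ M) {P : ℤ → ℤ → G → ℝ} (h0 : ∀ i j g, 0 ≤ P i j g)
    (h1 : ∀ i j (s : Finset G), ∑ g ∈ s, P i j g ≤ 1) (a b : ℤ) :
    Dist (avg M (fun i j => P (i + a) (j + b))) (avg M P) (2 * (|a| + |b|) / M) := by
  have h2 := h27_int hM (P := fun i j => P i (j + b)) (fun i j g => h0 _ _ _) (fun i j s => h1 _ _ _) a
  have h3 := h27_int hM (P := fun i j => P j i) (fun i j g => h0 _ _ _) (fun i j s => h1 _ _ _) b
  have e1 : avg M (fun (i j : ℤ) => (fun (i j : ℤ) => P j i) (i + b) j) = avg M (fun i j => P i (j + b)) :=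
    h27_swap M (fun i j => P i (j + b))
  rw [e1, h27_swap M P] at h3
  refine (h2.trans h3).mono (le_of_eq ?_)
  push_cast
  ring

open Classical in
/-- Restriction to a finite set, normalised. -/
noncomputable def trunc (S : Finset G) (P : G → ℝ) (g : G) : ℝ := if g ∈ S then P g / ∑ t ∈ S, P t else 0

theorem trunc_nonneg (S : Finset G) {P : G → ℝ} (h0 : ∀ g, 0 ≤ P g) (g : G) : 0 ≤ trunc S P g := by
  unfold trunc
  split_ifs
  · exact div_nonneg (h0 g) (Finset.sum_nonneg fun t _ => h0 t)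
  · exact le_rfl

theorem trunc_sum (S : Finset G) {P : G → ℝ} (h : 0 < ∑ t ∈ S, P t) : ∑ t ∈ S, trunc S P t = 1 := by
  have h1 : ∑ t ∈ S, trunc S P t = ∑ t ∈ S, P t / ∑ u ∈ S, P u := by
    refine Finset.sum_congr rfl fun t ht => ?_
    unfold trunc
    rw [if_pos ht]
  rw [h1, ← Finset.sum_div, div_self h.ne']

theorem trunc_dist (S : Finset G) {P : G → ℝ} (h0 : ∀ g, 0 ≤ P g) (h1 : HasSum P 1) {e : ℝ}
    (he : e ≤ 1 / 2) (hS : 1 - e ≤ ∑ t ∈ S, P t) : Dist (trunc S P) P (2 * e) := by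
  classical
  intro s
  obtain ⟨m, hm⟩ : ∃ m, m = ∑ t ∈ S, P t := ⟨_, rfl⟩
  have hm1 : m ≤ 1 := by rw [hm]; exact sum_le_hasSum S (fun t _ => h0 t) h1
  rw [← hm] at hS
  have hm0 : 0 < m := by linarith
  have hsplit : ∑ t ∈ s, |trunc S P t - P t| =
      ∑ t ∈ s.filter (· ∈ S), |trunc S P t - P t| + ∑ t ∈ s.filter (· ∉ S), |trunc S P t - P t| :=
    (Finset.sum_filter_add_sum_filter_not s (· ∈ S) _).symm
  have ha : ∑ t ∈ s.filter (· ∈ S), |trunc S P t - P t| ≤ 1 - m := by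
    have h2 : ∀ t ∈ s.filter (· ∈ S), |trunc S P t - P t| = P t / m - P t := by
      intro t ht
      unfold trunc
      rw [if_pos (Finset.mem_filter.1 ht).2, ← hm, abs_of_nonneg]
      rw [sub_nonneg, le_div_iff₀ hm0]
      exact mul_le_of_le_one_right (h0 t) hm1
    rw [Finset.sum_congr rfl h2]
    calc ∑ t ∈ s.filter (· ∈ S), (P t / m - P t) ≤ ∑ t ∈ S, (P t / m - P t) := by
          refine Finset.sum_le_sum_of_subset_of_nonneg (fun t ht => (Finset.mem_filter.1 ht).2) fun t _ _ => ?_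
          rw [sub_nonneg, le_div_iff₀ hm0]
          exact mul_le_of_le_one_right (h0 t) hm1
      _ = 1 - m := by
          rw [Finset.sum_sub_distrib, ← Finset.sum_div, ← hm, div_self hm0.ne']
  have hb : ∑ t ∈ s.filter (· ∉ S), |trunc S P t - P t| ≤ 1 - m := by
    have h2 : ∀ t ∈ s.filter (· ∉ S), |trunc S P t - P t| = P t := by
      intro t ht
      unfold trunc
      rw [if_neg (Finset.mem_filter.1 ht).2, zero_sub, abs_neg, abs_of_nonneg (h0 t)]
    rw [Finset.sum_congr rfl h2]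
    have hd : Disjoint (s.filter (· ∉ S)) S := by
      rw [Finset.disjoint_left]
      intro t ht
      exact (Finset.mem_filter.1 ht).2
    have h3 := sum_le_hasSum (s.filter (· ∉ S) ∪ S) (fun t _ => h0 t) h1
    rw [Finset.sum_union hd, ← hm] at h3
    linarith
  rw [hsplit]
  linarith

theorem trunc_close (S : Finset G) {P Q : G → ℝ} (h0 : ∀ g, 0 ≤ P g) (h0' : ∀ g, 0 ≤ Q g)
    (hP : 1 / 2 ≤ ∑ t ∈ S, P t) (hQ : 1 / 2 ≤ ∑ t ∈ S, Q t) {e : ℝ} (h : Dist P Q e) :
    ∑ t ∈ S, |trunc S P t - trunc S Q t| ≤ 4 * e := by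
  obtain ⟨m, hm⟩ : ∃ m, m = ∑ t ∈ S, P t := ⟨_, rfl⟩
  obtain ⟨n, hn⟩ : ∃ n, n = ∑ t ∈ S, Q t := ⟨_, rfl⟩
  rw [← hm] at hP
  rw [← hn] at hQ
  have hm0 : 0 < m := by linarith
  have hn0 : 0 < n := by linarith
  have hS := h S
  have hmn : |n - m| ≤ e := by
    rw [hm, hn, ← Finset.sum_sub_distrib]
    refine (Finset.abs_sum_le_sum_abs _ _).trans ?_
    simpa only [abs_sub_comm] using hS
  have h2 : ∀ t ∈ S, |trunc S P t - trunc S Q t| ≤ |P t - Q t| / m + Q t / n * (|n - m| / m) := by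
    intro t ht
    unfold trunc
    rw [if_pos ht, if_pos ht, ← hm, ← hn]
    have e1 : P t / m - Q t / n = (P t - Q t) / m + Q t / n * ((n - m) / m) := by
      field_simp
      ring
    rw [e1]
    refine (abs_add_le _ _).trans (le_of_eq ?_)
    rw [abs_div, abs_mul, abs_div, abs_div, abs_of_pos hm0, abs_of_pos hn0, abs_of_nonneg (h0' t)]
  refine (Finset.sum_le_sum h2).trans ?_
  rw [Finset.sum_add_distrib, ← Finset.sum_div, ← Finset.sum_mul, ← Finset.sum_div, ← hn, div_self hn0.ne', one_mul]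
  have h3 : (∑ t ∈ S, |P t - Q t|) / m ≤ 2 * e := by
    rw [div_le_iff₀ hm0]
    have : 0 ≤ e := (Finset.sum_nonneg fun t _ => abs_nonneg (P t - Q t)).trans hS
    nlinarith
  have h4 : |n - m| / m ≤ 2 * e := by
    rw [div_le_iff₀ hm0]
    have : 0 ≤ e := (abs_nonneg _).trans hmn
    nlinarith
  linarith

end Pool.Agent.Helper35.AM
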