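import Pool.Agent.Helper35.AM.Basic

/-!
# AM-GR: polynomial growth (project NI, MP_0f6f3f_an)

`growth`: for some exponent `L` the sum of `hs(iota g)^(-L)` over `G` converges.

PROOF IN WORDS. Let `K = #{x : hs (iota x) <= 9}` (finite by `Rep.fin`). For `g` in `G` let `r(g)` be a natural
number with `hs (iota g) <= r(g) <= hs (iota g) + 1` (ceiling), and let `Phi_r(g)` be the 18 integers
`floor (100 r * Re (iota g)_ij)`, `floor (100 r * Im (iota g)_ij)`.
(1) If `hs (iota g), hs (iota g') <= r` and `Phi_r(g) = Phi_r(g')` then `hs (iota (g^-1 g')) <= 9`. Indeed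
`hs (iota (g^-1 g')) = hs ((iota g)^-1 * iota g')` (`Rep.hs_inv_mul`), `(iota g)^-1 * iota g' = 1 + (iota g)^-1 * (iota g' - iota g)`,
the entries of `iota g' - iota g` are at most `2/(100 r)` in norm, so `sqrt (hs (iota g' - iota g)) <= 3 * 2/(100 r)`
(`hs_le_of_entries`), and `sqrt (hs (iota g)^-1) <= 6 hs (iota g) <= 6 r` (`hs_inv_le`), so
`sqrt hs <= sqrt 3 + 6 r * 6/(100 r) <= 3` (`sqrt_hs_add_le`, `sqrt_hs_mul_le`, `hs_one`).
(2) So for every finite set `s` of elements with `hs (iota g) <= r` (`r >= 1` natural) the fibres of `Phi_r` on `s` have at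
most `K` elements (`g' -> g^-1 g'` is injective) and `#s <= K * (number of values) <= K * (2 (100 r * r + 1) + 1)^18 <= K * (300 r^2)^18`
(`Finset.card_le_mul_card_image`, values in the product of the intervals `[-(100 r^2+1), 100 r^2+1]`; `|entry| <= sqrt (hs) <= r`).
(3) `hs (iota g) >= c > 0` for all `g` (`1 = |det| <= 6 (sqrt hs)^3`, or by `hs_inv_le`, `hs_mul_le` applied to `iota g * (iota g)^-1 = 1`:
`3 <= hs * 36 hs^2`), so `hs (iota g) >= r(g) / C` and with `L = 38`: for every finite set `s`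
`sum_(g in s) hs^-L <= sum_r #(s_r) (C/r)^38 <= K C^38 300^18 sum_r r^-2` with `s_r = {g in s : r(g) = r}`; `summable_of_sum_le`.
Any exponent `L` is fine (take it larger if this is more convenient).
-/

open Finset Matrix

namespace Pool.Agent.Helper35.AM

variable {G : Type*} [Group G] {ι : G → M3}

theorem hs_lower {X : M3} (h : ‖X.det‖ = 1) : 1 / 3 ≤ hs X := by
  have hd : IsUnit X.det := by
    rw [isUnit_iff_ne_zero]
    intro h0
    rw [h0, norm_zero] at h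
    exact zero_ne_one h
  have h1 := hs_mul_le X X⁻¹
  rw [Matrix.mul_nonsing_inv _ hd, hs_one] at h1
  have h2 := hs_inv_le h
  have h3 := hs_nonneg X
  by_contra hcon
  rw [not_le] at hcon
  have h4 : hs X * hs X⁻¹ ≤ hs X * (36 * hs X ^ 2) := mul_le_mul_of_nonneg_left h2 h3
  have h5 : hs X ^ 3 ≤ (1 / 3) ^ 3 := pow_le_pow_left₀ h3 hcon.le 3
  nlinarith

/-- the cell of `g` -/
noncomputable def cell (ι : G → M3) (r : ℕ) (g : G) (x : Fin 3 × Fin 3 × Bool) : ℤ :=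
  ⌊100 * (r : ℝ) * (if x.2.2 then (ι g x.1 x.2.1).re else (ι g x.1 x.2.1).im)⌋

lemma floor_close {a b : ℝ} (h : ⌊a⌋ = ⌊b⌋) : |a - b| ≤ 1 := by
  have h1 := Int.floor_le a
  have h2 := Int.lt_floor_add_one a
  have h3 := Int.floor_le b
  have h4 := Int.lt_floor_add_one b
  rw [h] at h1 h2
  rw [abs_le]
  constructor <;> linarith

lemma close_of_cell {r : ℕ} (hr : 1 ≤ r) {g g' : G} (h : cell ι r g = cell ι r g') :
    Real.sqrt (hs (ι g' - ι g)) ≤ 3 / (50 * r) := by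
  have hr0 : (0 : ℝ) < r := by exact_mod_cast hr
  have h1 : ∀ i j, ‖(ι g' - ι g) i j‖ ≤ 1 / (50 * r) := by
    intro i j
    have e1 := floor_close (congrFun h (i, j, true)).symm
    have e2 := floor_close (congrFun h (i, j, false)).symm
    simp only [if_true, Bool.false_eq_true, if_false] at e1 e2
    have e3 : |((ι g' - ι g) i j).re| ≤ 1 / (100 * r) := by
      rw [Matrix.sub_apply, Complex.sub_re, le_div_iff₀ (by positivity)]
      have : |(ι g' i j).re - (ι g i j).re| * (100 * (r : ℝ)) =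
          |100 * (r : ℝ) * (ι g' i j).re - 100 * (r : ℝ) * (ι g i j).re| := by
        rw [← mul_sub, abs_mul, abs_of_pos (by positivity : (0 : ℝ) < 100 * r)]
        ring
      rw [this]
      exact e1
    have e4 : |((ι g' - ι g) i j).im| ≤ 1 / (100 * r) := by
      rw [Matrix.sub_apply, Complex.sub_im, le_div_iff₀ (by positivity)]
      have : |(ι g' i j).im - (ι g i j).im| * (100 * (r : ℝ)) =
          |100 * (r : ℝ) * (ι g' i j).im - 100 * (r : ℝ) * (ι g i j).im| := by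
        rw [← mul_sub, abs_mul, abs_of_pos (by positivity : (0 : ℝ) < 100 * r)]
        ring
      rw [this]
      exact e2
    calc ‖(ι g' - ι g) i j‖ ≤ |((ι g' - ι g) i j).re| + |((ι g' - ι g) i j).im| :=
          Complex.norm_le_abs_re_add_abs_im _
      _ ≤ 1 / (100 * r) + 1 / (100 * r) := add_le_add e3 e4
      _ = 1 / (50 * r) := by
        field_simp
        norm_num
  have h2 := hs_le_of_entries h1
  rw [Real.sqrt_le_left (by positivity)]
  refine h2.trans (le_of_eq ?_)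
  field_simp
  norm_num

lemma close_inv {r : ℕ} (hr : 1 ≤ r) (hι : Rep G ι) {g g' : G} (hg : hs (ι g) ≤ r)
    (h : cell ι r g = cell ι r g') : hs (ι (g⁻¹ * g')) ≤ 9 := by
  have hr0 : (0 : ℝ) < r := by exact_mod_cast hr
  have hd : IsUnit (ι g).det := isUnit_iff_ne_zero.mpr (hι.det_ne g)
  rw [hι.hs_inv_mul]
  have e : (ι g)⁻¹ * ι g' = 1 + (ι g)⁻¹ * (ι g' - ι g) := by
    rw [mul_sub, Matrix.nonsing_inv_mul _ hd]
    abel
  have h1 : Real.sqrt (hs (ι g)⁻¹) ≤ 6 * r := by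
    rw [Real.sqrt_le_left (by positivity)]
    calc hs (ι g)⁻¹ ≤ 36 * hs (ι g) ^ 2 := hs_inv_le (hι.det g)
      _ ≤ 36 * (r : ℝ) ^ 2 := by
        have := pow_le_pow_left₀ (hs_nonneg (ι g)) hg 2
        linarith
      _ = (6 * r) ^ 2 := by ring
  have h2 := close_of_cell hr h
  have h3 : Real.sqrt (hs ((ι g)⁻¹ * (ι g' - ι g))) ≤ 6 * r * (3 / (50 * r)) :=
    (sqrt_hs_mul_le _ _).trans (mul_le_mul h1 h2 (Real.sqrt_nonneg _) (by positivity))
  have h4 : 6 * (r : ℝ) * (3 / (50 * r)) = 9 / 25 := by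
    field_simp
    norm_num
  have h5 := sqrt_hs_add_le 1 ((ι g)⁻¹ * (ι g' - ι g))
  rw [← e, hs_one] at h5
  have h6 : Real.sqrt 3 ≤ 2 := by
    rw [Real.sqrt_le_left (by norm_num)]
    norm_num
  have h7 : Real.sqrt (hs ((ι g)⁻¹ * ι g')) ≤ 3 := by linarith
  rw [Real.sqrt_le_left (by norm_num)] at h7
  linarith

lemma cell_mem {r : ℕ} (hr : 1 ≤ r) {g : G} (hg : hs (ι g) ≤ r) (x : Fin 3 × Fin 3 × Bool) :
    cell ι r g x ∈ Finset.Icc (-(100 * (r : ℤ) ^ 2 + 1)) (100 * (r : ℤ) ^ 2 + 1) := by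
  have hr0 : (1 : ℝ) ≤ r := by exact_mod_cast hr
  have h1 : ‖ι g x.1 x.2.1‖ ≤ r := by
    have h2 := hs_entry (ι g) x.1 x.2.1
    by_contra hcon
    rw [not_le] at hcon
    nlinarith
  have h2 : |(if x.2.2 then (ι g x.1 x.2.1).re else (ι g x.1 x.2.1).im)| ≤ (r : ℝ) := by
    split_ifs
    · exact (Complex.abs_re_le_norm _).trans h1
    · exact (Complex.abs_im_le_norm _).trans h1
  set y : ℝ := (if x.2.2 then (ι g x.1 x.2.1).re else (ι g x.1 x.2.1).im) with hy
  have h3 := abs_le.1 h2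
  rw [Finset.mem_Icc]
  unfold cell
  rw [← hy]
  constructor
  · rw [Int.le_floor]
    push_cast
    nlinarith
  · have h4 : (⌊100 * (r : ℝ) * y⌋ : ℝ) ≤ 100 * (r : ℝ) * y := Int.floor_le _
    have h5 : ((⌊100 * (r : ℝ) * y⌋ : ℤ) : ℝ) ≤ ((100 * (r : ℤ) ^ 2 + 1 : ℤ) : ℝ) := by
      push_cast
      nlinarith
    exact_mod_cast h5

lemma card_ball (hι : Rep G ι) : ∃ K : ℕ, ∀ r : ℕ, 1 ≤ r → ∀ s : Finset G,
    (∀ g ∈ s, hs (ι g) ≤ r) → s.card ≤ K * (203 * r ^ 2) ^ 18 := by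
  classical
  have hfin := hι.fin 9
  refine ⟨hfin.toFinset.card, fun r hr s hs' => ?_⟩
  have h1 := Finset.card_le_mul_card_image (f := cell ι r) s hfin.toFinset.card (by
    intro v hv
    rw [Finset.mem_image] at hv
    obtain ⟨g₀, hg₀, rfl⟩ := hv
    refine Finset.card_le_card_of_injOn (fun g => g₀⁻¹ * g) ?_ ?_
    · intro g hg
      rw [Finset.mem_coe, Finset.mem_filter] at hg
      rw [Finset.mem_coe, Set.Finite.mem_toFinset]
      exact close_inv hr hι (hs' g₀ hg₀) hg.2.symm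
    · intro g _ g' _ h
      exact mul_left_cancel h)
  refine h1.trans (Nat.mul_le_mul_left _ ?_)
  have h2 : s.image (cell ι r) ⊆ Fintype.piFinset (fun _ : Fin 3 × Fin 3 × Bool =>
      Finset.Icc (-(100 * (r : ℤ) ^ 2 + 1)) (100 * (r : ℤ) ^ 2 + 1)) := by
    intro v hv
    rw [Finset.mem_image] at hv
    obtain ⟨g, hg, rfl⟩ := hv
    rw [Fintype.mem_piFinset]
    exact fun x => cell_mem hr (hs' g hg) x
  refine (Finset.card_le_card h2).trans ?_
  have h3 : Fintype.card (Fin 3 × Fin 3 × Bool) = 18 := by decide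
  rw [Fintype.card_piFinset, Finset.prod_const, Finset.card_univ, h3]
  refine Nat.pow_le_pow_left ?_ 18
  rw [Int.card_Icc]
  have h4 : 1 ≤ r ^ 2 := Nat.one_le_pow _ _ hr
  have h5 : ((100 * (r : ℤ) ^ 2 + 1) + 1 - -(100 * (r : ℤ) ^ 2 + 1)) =
      ((200 * r ^ 2 + 3 : ℕ) : ℤ) := by
    push_cast
    ring
  rw [h5, Int.toNat_natCast]
  omega

theorem growth (hι : Rep G ι) : ∃ L : ℕ, Summable (fun g : G => ((hs (ι g))⁻¹) ^ L) := by
  classical
  obtain ⟨K, hK⟩ := card_ball hι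
  refine ⟨38, ?_⟩
  have hsum : Summable (fun j : ℕ => 1 / (j : ℝ) ^ 2) :=
    Real.summable_one_div_nat_pow.2 (by norm_num)
  set C : ℝ := K * 203 ^ 18 * 3 ^ 38 with hC
  have hC0 : 0 ≤ C := by positivity
  let ρ : G → ℕ := fun g => ⌈hs (ι g)⌉₊
  have hlow : ∀ g, 1 / 3 ≤ hs (ι g) := fun g => hs_lower (hι.det g)
  have hρ1 : ∀ g, 1 ≤ ρ g := fun g => by
    have := hlow g
    exact Nat.one_le_ceil_iff.2 (by linarith)
  have hρ2 : ∀ g, hs (ι g) ≤ ρ g := fun g => Nat.le_ceil _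
  have hρ3 : ∀ g, (ρ g : ℝ) ≤ 3 * hs (ι g) := fun g => by
    have h1 := hlow g
    rcases le_or_gt (hs (ι g)) 1 with h | h
    · have : ρ g ≤ 1 := Nat.ceil_le.2 (by exact_mod_cast h)
      have h2 : (ρ g : ℝ) ≤ 1 := by exact_mod_cast this
      linarith
    · have := Nat.ceil_lt_add_one (hs_nonneg (ι g))
      have h2 : (ρ g : ℝ) < hs (ι g) + 1 := this
      linarith
  refine summable_of_sum_le (c := C * ∑' j : ℕ, 1 / (j : ℝ) ^ 2) (fun g => ?_) (fun s => ?_)
  · have := hs_nonneg (ι g)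
    show (0 : ℝ) ≤ ((hs (ι g))⁻¹) ^ 38
    positivity
  · have h1 : ∀ j ∈ s.image ρ, ∑ g ∈ s with ρ g = j, ((hs (ι g))⁻¹) ^ 38 ≤
        C * (1 / (j : ℝ) ^ 2) := by
      intro j hj
      rw [Finset.mem_image] at hj
      obtain ⟨g₀, _, rfl⟩ := hj
      set j := ρ g₀ with hj'
      have hj1 : 1 ≤ j := hρ1 g₀
      have hj0 : (0 : ℝ) < j := by exact_mod_cast hj1
      have h2 : ∑ g ∈ s with ρ g = j, ((hs (ι g))⁻¹) ^ 38 ≤
          ∑ g ∈ s with ρ g = j, (3 / (j : ℝ)) ^ 38 := by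
        refine Finset.sum_le_sum (fun g hg => ?_)
        have hg' := (Finset.mem_filter.1 hg).2
        have h3 := hρ3 g
        rw [hg'] at h3
        have h4 := hlow g
        have h5 : 0 < hs (ι g) := by linarith
        refine pow_le_pow_left₀ (by positivity) ?_ 38
        rw [inv_eq_one_div, div_le_div_iff₀ h5 hj0]
        linarith
      have h3 : ({g ∈ s | ρ g = j}.card : ℝ) ≤ ((K * (203 * j ^ 2) ^ 18 : ℕ) : ℝ) := by
        refine Nat.cast_le.2 (hK j hj1 _ (fun g hg => ?_))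
        have hg' := (Finset.mem_filter.1 hg).2
        rw [← hg']
        exact hρ2 g
      calc ∑ g ∈ s with ρ g = j, ((hs (ι g))⁻¹) ^ 38 ≤
          ∑ g ∈ s with ρ g = j, (3 / (j : ℝ)) ^ 38 := h2
        _ = ({g ∈ s | ρ g = j}.card : ℝ) * (3 / (j : ℝ)) ^ 38 := by
          rw [Finset.sum_const, nsmul_eq_mul]
        _ ≤ ((K * (203 * j ^ 2) ^ 18 : ℕ) : ℝ) * (3 / (j : ℝ)) ^ 38 :=
          mul_le_mul_of_nonneg_right h3 (by positivity)
        _ = C * (1 / (j : ℝ) ^ 2) := by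
          rw [hC]
          push_cast
          rw [div_pow, mul_pow, ← pow_mul]
          have e1 : (j : ℝ) ^ (2 * 18) / (j : ℝ) ^ 38 = 1 / (j : ℝ) ^ 2 := by
            rw [div_eq_div_iff (by positivity) (by positivity)]
            ring
          calc (K : ℝ) * (203 ^ 18 * (j : ℝ) ^ (2 * 18)) * (3 ^ 38 / (j : ℝ) ^ 38) =
              K * 203 ^ 18 * 3 ^ 38 * ((j : ℝ) ^ (2 * 18) / (j : ℝ) ^ 38) := by ring
            _ = _ := by rw [e1]
    calc ∑ g ∈ s, ((hs (ι g))⁻¹) ^ 38 =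
        ∑ j ∈ s.image ρ, ∑ g ∈ s with ρ g = j, ((hs (ι g))⁻¹) ^ 38 :=
          (Finset.sum_fiberwise_of_maps_to (fun g hg => Finset.mem_image_of_mem ρ hg) _).symm
      _ ≤ ∑ j ∈ s.image ρ, C * (1 / (j : ℝ) ^ 2) := Finset.sum_le_sum h1
      _ = C * ∑ j ∈ s.image ρ, 1 / (j : ℝ) ^ 2 := by rw [Finset.mul_sum]
      _ ≤ C * ∑' j : ℕ, 1 / (j : ℝ) ^ 2 :=
          mul_le_mul_of_nonneg_left (hsum.sum_le_tsum _ (fun j _ => by positivity)) hC0

end Pool.Agent.Helper35.AM
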