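import Pool.Agent.Helper35.AM.Basic

/-!
# AM-KAP: the measures kappa_X (project NI, MP_0f6f3f_an)

`w L X g = hs(iota(g^-1) X)^(-L)` and `kap L X = w L X / sum of w L X`, a probability measure on `G`.

PROOFS IN WORDS. All are one to ten lines. `iota (g^-1) * X` is invertible, so `hs > 0` (`hs_pos`).
* `w_le`: `hs (iota g^-1) = hs (iota g^-1 * X * X^-1) <= hs (iota g^-1 * X) * hs X^-1`.
* `w_summable`: from `w_le` and `hL` composed with the bijection `g -> g^-1`.
* `kap_le`: `w_le` and `tsum >= w L X 1 = hs X^(-L)` (as `iota 1 = 1`).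
* `kap_equiv`: `w L (iota h * X) g = hs (iota g^-1 * (iota h * X))^-L = hs (iota (g^-1 h) * X)^-L = w L X (h^-1 g)` by `Rep.hs_mul`;
  the sums agree by the bijection `g -> h^-1 g`.
* `kap_smul`, `kap_un`: `w` is multiplied by `(|c|^2)^-L`, is unchanged (`hs_smul`, `hs_un_right`).
* `harnack`: `b^-L w L X g <= w L (X v) g <= a^-L w L X g`, the same for the sums, so
  `(a/b)^L kap L X g <= kap L (X v) g <= (b/a)^L kap L X g`; and `1 - (a/b)^L <= (b/a)^L - 1`, so
  `|kap L (X v) g - kap L X g| <= ((b/a)^L - 1) kap L X g`; sum over a finite set (the sum of kap over a finite set is `<= 1`).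
  (`a <= b` as `hs 1 = 3 > 0`; `det (X v) != 0` is a hypothesis.)
-/

open Finset Matrix

namespace Pool.Agent.Helper35.AM

variable {G : Type*} [Group G] {ι : G → M3} {L : ℕ}

/-- The weights. -/
noncomputable def w (ι : G → M3) (L : ℕ) (X : M3) (g : G) : ℝ := ((hs (ι g⁻¹ * X))⁻¹) ^ L

/-- The probability measures. -/
noncomputable def kap (ι : G → M3) (L : ℕ) (X : M3) (g : G) : ℝ := w ι L X g / ∑' g', w ι L X g'

theorem w_pos (hι : Rep G ι) {X : M3} (hX : X.det ≠ 0) (g : G) : 0 < w ι L X g := by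
  unfold w
  have h : 0 < hs (ι g⁻¹ * X) := by
    apply hs_pos
    intro h
    have h2 := congrArg Matrix.det h
    rw [Matrix.det_mul, Matrix.det_zero] at h2
    exact mul_ne_zero (hι.det_ne _) hX h2
  positivity

theorem w_le (hι : Rep G ι) {X : M3} (hX : X.det ≠ 0) (g : G) :
    w ι L X g ≤ hs X⁻¹ ^ L * ((hs (ι g⁻¹))⁻¹) ^ L := by
  unfold w
  rw [← mul_pow]
  have h : 0 < hs (ι g⁻¹ * X) := by
    apply hs_pos
    intro h
    have h2 := congrArg Matrix.det h
    rw [Matrix.det_mul, Matrix.det_zero] at h2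
    exact mul_ne_zero (hι.det_ne _) hX h2
  have h0 : 0 < hs (ι g⁻¹) := hs_pos (hι.ne _)
  refine pow_le_pow_left₀ (by positivity) ?_ L
  have h1 : hs (ι g⁻¹) ≤ hs (ι g⁻¹ * X) * hs X⁻¹ := by
    have h2 : ι g⁻¹ = (ι g⁻¹ * X) * X⁻¹ := by
      rw [mul_assoc, Matrix.mul_nonsing_inv _ (isUnit_iff_ne_zero.mpr hX), mul_one]
    conv_lhs => rw [h2]
    exact hs_mul_le _ _
  rw [inv_le_iff_one_le_mul₀ h]
  calc (1 : ℝ) = hs (ι g⁻¹) * (hs (ι g⁻¹))⁻¹ := (mul_inv_cancel₀ h0.ne').symm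
    _ ≤ (hs (ι g⁻¹ * X) * hs X⁻¹) * (hs (ι g⁻¹))⁻¹ := mul_le_mul_of_nonneg_right h1 (by positivity)
    _ = hs X⁻¹ * (hs (ι g⁻¹))⁻¹ * hs (ι g⁻¹ * X) := by ring

theorem w_summable (hι : Rep G ι) (hL : Summable (fun g : G => ((hs (ι g))⁻¹) ^ L)) {X : M3}
    (hX : X.det ≠ 0) : Summable (w ι L X) := by
  refine Summable.of_nonneg_of_le (fun g => (w_pos hι hX g).le) (fun g => w_le hι hX g) ?_
  apply Summable.mul_left
  exact (Equiv.inv G).summable_iff.mpr hL

theorem kap_nonneg (ι : G → M3) (L : ℕ) (X : M3) (g : G) : 0 ≤ kap ι L X g := by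
  have h : ∀ g : G, 0 ≤ w ι L X g := fun g => by
    unfold w
    have := hs_nonneg (ι g⁻¹ * X)
    positivity
  exact div_nonneg (h g) (tsum_nonneg h)

theorem kap_hasSum (hι : Rep G ι) (hL : Summable (fun g : G => ((hs (ι g))⁻¹) ^ L)) {X : M3}
    (hX : X.det ≠ 0) : HasSum (kap ι L X) 1 := by
  have hs' := w_summable hι hL hX
  have hS : 0 < ∑' g', w ι L X g' := hs'.tsum_pos (fun g => (w_pos hι hX g).le) 1 (w_pos hι hX 1)
  have h := hs'.hasSum.div_const (∑' g', w ι L X g')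
  rw [div_self hS.ne'] at h
  exact h

theorem kap_le (hι : Rep G ι) (hL : Summable (fun g : G => ((hs (ι g))⁻¹) ^ L)) {X : M3}
    (hX : X.det ≠ 0) (g : G) : kap ι L X g ≤ (hs X * hs X⁻¹) ^ L * ((hs (ι g⁻¹))⁻¹) ^ L := by
  have hs' := w_summable hι hL hX
  have hX0 : 0 < hs X := by
    apply hs_pos
    rintro rfl
    exact hX (by rw [Matrix.det_zero])
  have h1 : w ι L X 1 ≤ ∑' g', w ι L X g' := hs'.le_tsum 1 fun g _ => (w_pos hι hX g).le
  have h2 : w ι L X 1 = ((hs X)⁻¹) ^ L := by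
    unfold w
    rw [inv_one, hι.one, one_mul]
  unfold kap
  have h3 : 0 < w ι L X 1 := w_pos hι hX 1
  calc w ι L X g / ∑' g', w ι L X g' ≤ w ι L X g / w ι L X 1 :=
        div_le_div_of_nonneg_left (w_pos hι hX g).le h3 h1
    _ ≤ (hs X⁻¹ ^ L * ((hs (ι g⁻¹))⁻¹) ^ L) / w ι L X 1 := div_le_div_of_nonneg_right (w_le hι hX g) h3.le
    _ = (hs X * hs X⁻¹) ^ L * ((hs (ι g⁻¹))⁻¹) ^ L := by
        rw [h2, mul_pow, inv_pow, inv_pow, div_inv_eq_mul]
        ring

theorem kap_equiv (hι : Rep G ι) (X : M3) (h g : G) : kap ι L (ι h * X) g = kap ι L X (h⁻¹ * g) := by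
  have hw : ∀ g : G, w ι L (ι h * X) g = w ι L X (h⁻¹ * g) := by
    intro g
    unfold w
    rw [← hι.hs_mul, _root_.mul_inv_rev, inv_inv]
  unfold kap
  rw [hw]
  congr 1
  simp only [hw]
  exact (Equiv.mulLeft h⁻¹).tsum_eq (fun g => w ι L X g)

theorem kap_smul (ι : G → M3) (L : ℕ) (X : M3) {c : ℂ} (hc : c ≠ 0) : kap ι L (c • X) = kap ι L X := by
  have hc' : (0 : ℝ) < ‖c‖ := norm_pos_iff.mpr hc
  have hw : ∀ g : G, w ι L (c • X) g = ((‖c‖ ^ 2)⁻¹) ^ L * w ι L X g := by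
    intro g
    unfold w
    rw [Matrix.mul_smul, hs_smul, mul_inv, mul_pow]
  funext g
  unfold kap
  simp only [hw]
  rw [tsum_mul_left, mul_div_mul_left _ _ (by positivity)]

theorem kap_un (ι : G → M3) (L : ℕ) (X : M3) {u : M3} (hu : Un u) : kap ι L (X * u) = kap ι L X := by
  have hw : ∀ g : G, w ι L (X * u) g = w ι L X g := by
    intro g
    unfold w
    rw [← mul_assoc, hs_un_right hu]
  funext g
  unfold kap
  simp only [hw]

theorem harnack (hι : Rep G ι) (hL : Summable (fun g : G => ((hs (ι g))⁻¹) ^ L)) {X v : M3}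
    (hX : X.det ≠ 0) (hXv : (X * v).det ≠ 0) {a b : ℝ} (ha : 0 < a)
    (h1 : ∀ Y : M3, a * hs Y ≤ hs (Y * v)) (h2 : ∀ Y : M3, hs (Y * v) ≤ b * hs Y) :
    Dist (kap ι L (X * v)) (kap ι L X) ((b / a) ^ L - 1) := by
  have hb1 : a ≤ b := by
    have h3 := (h1 1).trans (h2 1)
    rw [hs_one] at h3
    linarith
  have hb : 0 < b := ha.trans_le hb1
  set S := ∑' g', w ι L X g' with hS
  set S' := ∑' g', w ι L (X * v) g' with hS'
  have hsX := w_summable hι hL hX
  have hsXv := w_summable hι hL hXv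
  have hSpos : 0 < S := hsX.tsum_pos (fun g => (w_pos hι hX g).le) 1 (w_pos hι hX 1)
  have hSpos' : 0 < S' := hsXv.tsum_pos (fun g => (w_pos hι hXv g).le) 1 (w_pos hι hXv 1)
  have hY : ∀ g : G, 0 < hs (ι g⁻¹ * X) := by
    intro g
    apply hs_pos
    intro h
    have h2 := congrArg Matrix.det h
    rw [Matrix.det_mul, Matrix.det_zero] at h2
    exact mul_ne_zero (hι.det_ne _) hX h2
  have hY' : ∀ g : G, 0 < hs (ι g⁻¹ * (X * v)) := by
    intro g
    apply hs_pos
    intro h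
    have h2 := congrArg Matrix.det h
    rw [Matrix.det_mul, Matrix.det_zero] at h2
    exact mul_ne_zero (hι.det_ne _) hXv h2
  have hup : ∀ g : G, w ι L (X * v) g ≤ (a⁻¹) ^ L * w ι L X g := by
    intro g
    unfold w
    rw [← mul_pow, ← mul_inv]
    refine pow_le_pow_left₀ (inv_nonneg.mpr (hY' g).le) ?_ L
    rw [← mul_assoc]
    exact inv_anti₀ (mul_pos ha (hY g)) (h1 _)
  have hlo : ∀ g : G, (b⁻¹) ^ L * w ι L X g ≤ w ι L (X * v) g := by
    intro g
    unfold w
    rw [← mul_pow, ← mul_inv]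
    refine pow_le_pow_left₀ (inv_nonneg.mpr (mul_pos hb (hY g)).le) ?_ L
    have h3 := hY' g
    rw [← mul_assoc] at h3 ⊢
    exact inv_anti₀ h3 (h2 _)
  have hSup : S' ≤ (a⁻¹) ^ L * S := by
    rw [hS, hS', ← tsum_mul_left]
    exact hsXv.tsum_le_tsum hup (hsX.mul_left _)
  have hSlo : (b⁻¹) ^ L * S ≤ S' := by
    rw [hS, hS', ← tsum_mul_left]
    exact (hsX.mul_left _).tsum_le_tsum hlo hsXv
  have hK : (1 : ℝ) ≤ (b / a) ^ L := one_le_pow₀ ((one_le_div ha).mpr hb1)
  have hK0 : (0 : ℝ) < (b / a) ^ L := lt_of_lt_of_le zero_lt_one hK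
  have key : ∀ g : G, |kap ι L (X * v) g - kap ι L X g| ≤ ((b / a) ^ L - 1) * kap ι L X g := by
    intro g
    have hk0 := kap_nonneg ι L X g
    have hup' : kap ι L (X * v) g ≤ (b / a) ^ L * kap ι L X g := by
      unfold kap
      rw [← hS, ← hS', div_le_iff₀ hSpos']
      have h4 : w ι L X g = (w ι L X g / S) * S := (div_mul_cancel₀ _ hSpos.ne').symm
      calc w ι L (X * v) g ≤ (a⁻¹) ^ L * w ι L X g := hup g
        _ = (b / a) ^ L * (w ι L X g / S) * ((b⁻¹) ^ L * S) := by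
            conv_lhs => rw [h4]
            rw [div_pow, inv_pow, inv_pow]
            field_simp
        _ ≤ (b / a) ^ L * (w ι L X g / S) * S' := by
            refine mul_le_mul_of_nonneg_left hSlo ?_
            exact mul_nonneg hK0.le (div_nonneg (w_pos hι hX g).le hSpos.le)
    have hlo' : kap ι L X g ≤ (b / a) ^ L * kap ι L (X * v) g := by
      unfold kap
      rw [← hS, ← hS', div_le_iff₀ hSpos]
      have h4 : w ι L (X * v) g = (w ι L (X * v) g / S') * S' := (div_mul_cancel₀ _ hSpos'.ne').symm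
      have h5 : w ι L X g ≤ b ^ L * w ι L (X * v) g := by
        have h6 := mul_le_mul_of_nonneg_left (hlo g) (pow_pos hb L).le
        rw [← mul_assoc, ← mul_pow, mul_inv_cancel₀ hb.ne', one_pow, one_mul] at h6
        exact h6
      calc w ι L X g ≤ b ^ L * w ι L (X * v) g := h5
        _ = b ^ L * ((w ι L (X * v) g / S') * S') := by rw [← h4]
        _ ≤ b ^ L * ((w ι L (X * v) g / S') * ((a⁻¹) ^ L * S)) := by
            refine mul_le_mul_of_nonneg_left ?_ (pow_pos hb L).le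
            exact mul_le_mul_of_nonneg_left hSup (div_nonneg (w_pos hι hXv g).le hSpos'.le)
        _ = (b / a) ^ L * (w ι L (X * v) g / S') * S := by
            rw [div_pow, inv_pow]
            field_simp
    rw [abs_le]
    constructor
    · have h7 : kap ι L X g / (b / a) ^ L ≤ kap ι L (X * v) g := by
        rw [div_le_iff₀ hK0]
        linarith
      have h8 : (2 - (b / a) ^ L) * kap ι L X g ≤ kap ι L X g / (b / a) ^ L := by
        rw [le_div_iff₀ hK0]
        nlinarith [mul_nonneg hk0 (sq_nonneg ((b / a) ^ L - 1))]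
      linarith
    · linarith
  intro s
  calc ∑ t ∈ s, |kap ι L (X * v) t - kap ι L X t| ≤ ∑ t ∈ s, ((b / a) ^ L - 1) * kap ι L X t :=
        Finset.sum_le_sum fun t _ => key t
    _ = ((b / a) ^ L - 1) * ∑ t ∈ s, kap ι L X t := (Finset.mul_sum _ _ _).symm
    _ ≤ ((b / a) ^ L - 1) * 1 := by
        refine mul_le_mul_of_nonneg_left ?_ (by linarith)
        exact sum_le_hasSum s (fun g _ => kap_nonneg ι L X g) (kap_hasSum hι hL hX)
    _ = (b / a) ^ L - 1 := mul_one _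

end Pool.Agent.Helper35.AM
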