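import Pool.Agent.Helper35.AM.Basic

/-!
# AM-M: an almost triangular matrix shifts the boxes (project NI, MP_0f6f3f_an)

`D n N i j = diag (exp (3 n + i/N), exp (n + j/N), 1)`.

`shift_exists`: for `H, e` there are `N, A, n0` and for `n >= n0` a `d > 0` such that: if `|det m| = 1`, `hs m <= H` and the
entries of `m` below the diagonal are at most `d`, then for some integers `a, b` of absolute value at most `A`
`m * D n N i j = c D n N (i+a) (j+b) * v` for all `0 <= i, j < n N`, with `v` within `e` of a unitary (diagonal) matrix.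

PROOF IN WORDS. Write `m = (m_ij)`, indices 0,1,2; `|m_ij| <= sqrt H <= H`. In the expansion of `det m` every term other than
`m00 m11 m22` contains an entry below the diagonal, so `1 <= |m00 m11 m22| + 5 d H^2`, and with `d <= 1/(10 H^2)`:
`|m00 m11 m22| >= 1/2`, so `1/(2 H^2) <= |m_ii| <= H`. Let `a` be the nearest integer to `N log (|m00|/|m22|)`, `b` the nearest
integer to `N log (|m11|/|m22|)`; `|a|, |b| <= N log (2 H^3) + 1 <= A`. Put `c = |m22|`, `v = c^-1 D n N (i+a) (j+b)^-1 m D n N i j`,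
i.e. `v_pq = m_pq D_q / (c D'_p)` with `D = D n N i j`, `D' = D n N (i+a) (j+b)`; let `d0 = diag (m_pp/|m_pp|)`.
Diagonal entries: `v_00 = m00/|m00| * exp (log (|m00|/|m22|) - a/N)` and `|log (..) - a/N| <= 1/(2N)`, so
`|v_00 - d0_00| <= exp (1/(2N)) - 1 <= 1/N`; the same for `v_11`; `v_22 = d0_22`.
Above the diagonal: `|v_01| <= H/c * exp ((n + j/N) - (3n + (i+a)/N)) <= 2 H^3 exp (-2n + j/N - a/N)` and `j/N <= n`,
`exp (-a/N) <= exp (log (2H^3) + 1) = 2 e H^3`: at most `C_H exp (-n)`; the same bound for `v_02, v_12`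
(`exp (0 - (3n + ..))`, `exp (0 - (n + (j+b)/N))`).
Below the diagonal: `|v_pq| <= d/c * exp (4n + A/N)` and the like: `<= C_(H,n) d`.
Choose `N` with `1/N <= e/9`, then `n0` with `C_H exp (-n) <= e/9`, then `d`. Finally `hs (v - d0) <= 9 (e/9)^2 <= e^2`.
-/

open Finset Matrix

namespace Pool.Agent.Helper35.AM

/-- The diagonal matrices of the boxes. -/
noncomputable def D (n N : ℕ) (i j : ℤ) : M3 :=
  Matrix.diagonal ![((Real.exp (3 * n + i / N) : ℝ) : ℂ), ((Real.exp (n + j / N) : ℝ) : ℂ), 1]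

lemma mul3_le {a b c A B C : ℝ} (ha : 0 ≤ a) (hb : 0 ≤ b) (hc : 0 ≤ c) (h1 : a ≤ A) (h2 : b ≤ B)
    (h3 : c ≤ C) : a * b * c ≤ A * B * C :=
  mul_le_mul (mul_le_mul h1 h2 hb (ha.trans h1)) h3 hc
    (mul_nonneg (ha.trans h1) (hb.trans h2))

lemma diag_lower {H d : ℝ} {m : M3} (hH : 1 ≤ H) (hd : 0 ≤ d) (hd' : d * (10 * H ^ 2) ≤ 1)
    (hdet : ‖m.det‖ = 1) (hm : ∀ i j, ‖m i j‖ ≤ H) (hl : ∀ i j : Fin 3, j < i → ‖m i j‖ ≤ d)
    (p : Fin 3) : 1 ≤ 2 * H ^ 2 * ‖m p p‖ := by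
  have h10 : ‖m 1 0‖ ≤ d := hl 1 0 (by decide)
  have h20 : ‖m 2 0‖ ≤ d := hl 2 0 (by decide)
  have h21 : ‖m 2 1‖ ≤ d := hl 2 1 (by decide)
  have key : 1 ≤ ‖m 0 0‖ * ‖m 1 1‖ * ‖m 2 2‖ + ‖m 0 0‖ * ‖m 1 2‖ * ‖m 2 1‖ +
      ‖m 0 1‖ * ‖m 1 0‖ * ‖m 2 2‖ + ‖m 0 1‖ * ‖m 1 2‖ * ‖m 2 0‖ +
      ‖m 0 2‖ * ‖m 1 0‖ * ‖m 2 1‖ + ‖m 0 2‖ * ‖m 1 1‖ * ‖m 2 0‖ := by
    rw [← hdet, Matrix.det_fin_three]
    simp only [← norm_mul]
    refine (norm_sub_le _ _).trans (add_le_add ?_ le_rfl)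
    refine (norm_add_le _ _).trans (add_le_add ?_ le_rfl)
    refine (norm_add_le _ _).trans (add_le_add ?_ le_rfl)
    refine (norm_sub_le _ _).trans (add_le_add ?_ le_rfl)
    exact norm_sub_le _ _
  have n : ∀ i j, 0 ≤ ‖m i j‖ := fun i j => norm_nonneg _
  have hHd : H * d * d ≤ H * H * d := by
    have h1 : d ≤ H := by nlinarith [sq_nonneg H]
    nlinarith [mul_le_mul_of_nonneg_left h1 (mul_nonneg (by linarith : (0:ℝ) ≤ H) hd)]
  have t1 := mul3_le (n 0 0) (n 1 2) (n 2 1) (hm 0 0) (hm 1 2) h21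
  have t2 := mul3_le (n 0 1) (n 1 0) (n 2 2) (hm 0 1) h10 (hm 2 2)
  have t3 := mul3_le (n 0 1) (n 1 2) (n 2 0) (hm 0 1) (hm 1 2) h20
  have t4 := mul3_le (n 0 2) (n 1 0) (n 2 1) (hm 0 2) h10 h21
  have t5 := mul3_le (n 0 2) (n 1 1) (n 2 0) (hm 0 2) (hm 1 1) h20
  have hP : 1 / 2 ≤ ‖m 0 0‖ * ‖m 1 1‖ * ‖m 2 2‖ := by
    have e1 : H * d * H = H * H * d := by ring
    rw [e1] at t2
    nlinarith
  have hfin : ‖m 0 0‖ * ‖m 1 1‖ * ‖m 2 2‖ ≤ H ^ 2 * ‖m p p‖ := by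
    fin_cases p
    · have := mul3_le (n 0 0) (n 1 1) (n 2 2) le_rfl (hm 1 1) (hm 2 2)
      calc _ ≤ _ := this
        _ = H ^ 2 * ‖m 0 0‖ := by ring
    · have := mul3_le (n 0 0) (n 1 1) (n 2 2) (hm 0 0) le_rfl (hm 2 2)
      calc _ ≤ _ := this
        _ = H ^ 2 * ‖m 1 1‖ := by ring
    · have := mul3_le (n 0 0) (n 1 1) (n 2 2) (hm 0 0) (hm 1 1) le_rfl
      calc _ ≤ _ := this
        _ = H ^ 2 * ‖m 2 2‖ := by ring
  linarith

/-- exponents of the boxes -/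
noncomputable def xe (n N : ℕ) (i j : ℤ) : Fin 3 → ℝ := ![3 * n + i / N, n + j / N, 0]

lemma D_eq (n N : ℕ) (i j : ℤ) :
    D n N i j = Matrix.diagonal (fun p => ((Real.exp (xe n N i j p) : ℝ) : ℂ)) := by
  unfold D
  congr 1
  funext p
  fin_cases p
  · rfl
  · rfl
  · simp [xe]

theorem shift_exists (H e : ℝ) (hH : 1 ≤ H) (he : 0 < e) :
    ∃ N : ℕ, 1 ≤ N ∧ ∃ A n0 : ℕ, ∀ n : ℕ, n0 ≤ n → ∃ d : ℝ, 0 < d ∧ ∀ m : M3, ‖m.det‖ = 1 →
      hs m ≤ H → (∀ i j : Fin 3, j < i → ‖m i j‖ ≤ d) →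
      ∃ a b : ℤ, |a| ≤ A ∧ |b| ≤ A ∧ ∀ i j : ℕ, i < n * N → j < n * N →
        ∃ (c : ℂ) (v d0 : M3), c ≠ 0 ∧ Un d0 ∧ hs (v - d0) ≤ e ^ 2 ∧
          m * D n N i j = c • (D n N (i + a) (j + b) * v) := by
  obtain ⟨N, hN⟩ := exists_nat_ge (9 / e + 1)
  have hNpos : (0 : ℝ) < N := by
    have : 0 < 9 / e := by positivity
    linarith
  have hN1 : 1 ≤ N := by
    have : 0 < N := by exact_mod_cast hNpos
    omega
  have hNe : 1 / (N : ℝ) ≤ e / 9 := by
    rw [div_le_div_iff₀ hNpos (by norm_num)]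
    have h1 : 9 / e ≤ N := by linarith
    rw [div_le_iff₀ he] at h1
    linarith
  set Λ : ℝ := Real.log (2 * H ^ 3) + 1 with hΛ
  have hH3 : 1 ≤ H ^ 3 := one_le_pow₀ hH
  have hlog0 : 0 ≤ Real.log (2 * H ^ 3) := Real.log_nonneg (by linarith)
  obtain ⟨A, hA⟩ := exists_nat_ge (N * Λ)
  obtain ⟨n0, hn0⟩ := exists_nat_ge (18 * H ^ 3 * Real.exp Λ / e)
  refine ⟨N, hN1, A, n0, fun n hn => ?_⟩
  have hup : 2 * H ^ 3 * Real.exp (Λ - n) ≤ e / 9 := by
    have h1 : (n0 : ℝ) ≤ n := by exact_mod_cast hn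
    have h2 : (n : ℝ) ≤ Real.exp n := by
      have := Real.add_one_le_exp (n : ℝ)
      linarith
    have h3 : 18 * H ^ 3 * Real.exp Λ / e ≤ Real.exp n := by linarith
    rw [div_le_iff₀ he] at h3
    rw [Real.exp_sub, ← mul_div_assoc, div_le_div_iff₀ (Real.exp_pos _) (by norm_num)]
    linarith
  set d : ℝ := min (1 / (10 * H ^ 2)) (e / 9 / (2 * H ^ 2 * Real.exp (4 * n + Λ))) with hd
  have hH0 : (0 : ℝ) < H := by linarith
  have hd0 : 0 < d := lt_min (by positivity) (by positivity)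
  have hd1 : d * (10 * H ^ 2) ≤ 1 := by
    have h1 : d ≤ 1 / (10 * H ^ 2) := min_le_left _ _
    rwa [le_div_iff₀ (by positivity)] at h1
  have hd2 : d * (2 * H ^ 2 * Real.exp (4 * n + Λ)) ≤ e / 9 := by
    have h1 : d ≤ e / 9 / (2 * H ^ 2 * Real.exp (4 * n + Λ)) := min_le_right _ _
    rwa [le_div_iff₀ (by positivity)] at h1
  refine ⟨d, hd0, fun m hdet hm hl => ?_⟩
  have hmH : ∀ i j, ‖m i j‖ ≤ H := by
    intro i j
    have h1 := hs_entry m i j
    by_contra hcon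
    rw [not_le] at hcon
    nlinarith
  have hlow := diag_lower hH hd0.le hd1 hdet hmH hl
  have hpos : ∀ p, 0 < ‖m p p‖ := by
    intro p
    by_contra hcon
    have h0 : ‖m p p‖ = 0 := le_antisymm (not_lt.1 hcon) (norm_nonneg _)
    have := hlow p
    rw [h0, mul_zero] at this
    linarith
  -- logarithms of the quotients
  let Lg : Fin 3 → ℝ := fun p => Real.log (‖m p p‖ / ‖m 2 2‖)
  have hLg : ∀ p, |Lg p| ≤ Real.log (2 * H ^ 3) := by
    intro p
    rw [abs_le]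
    have h1 := hlow p
    have h2 := hlow 2
    have h3 := hmH p p
    have h4 := hmH 2 2
    have h5 := hpos p
    have h6 := hpos 2
    constructor
    · rw [← Real.log_inv]
      refine Real.log_le_log (by positivity) ?_
      rw [inv_eq_one_div, div_le_div_iff₀ (by positivity) h6]
      calc 1 * ‖m 2 2‖ ≤ H := by linarith
        _ = H * 1 := by ring
        _ ≤ H * (2 * H ^ 2 * ‖m p p‖) := mul_le_mul_of_nonneg_left h1 hH0.le
        _ = ‖m p p‖ * (2 * H ^ 3) := by ring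
    · refine Real.log_le_log (by positivity) ?_
      rw [div_le_iff₀ h6]
      calc ‖m p p‖ ≤ H := h3
        _ = H * 1 := by ring
        _ ≤ H * (2 * H ^ 2 * ‖m 2 2‖) := mul_le_mul_of_nonneg_left h2 hH0.le
        _ = 2 * H ^ 3 * ‖m 2 2‖ := by ring
  have hexpL : ∀ p, ‖m p p‖ = ‖m 2 2‖ * Real.exp (Lg p) := by
    intro p
    have h6 := hpos 2
    rw [Real.exp_log (div_pos (hpos p) h6)]
    field_simp
  -- the shifts
  let sh : Fin 3 → ℤ := fun p => round ((N : ℝ) * Lg p)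
  have hsh : ∀ p, |Lg p - (sh p : ℝ) / N| ≤ 1 / (2 * N) := by
    intro p
    have h1 : |(N : ℝ) * Lg p - (sh p : ℝ)| ≤ 1 / 2 := abs_sub_round ((N : ℝ) * Lg p)
    have h2 : Lg p - (sh p : ℝ) / N = ((N : ℝ) * Lg p - (sh p : ℝ)) / N := by
      rw [sub_div, mul_div_cancel_left₀ _ hNpos.ne']
    rw [h2, abs_div, abs_of_pos hNpos, div_le_div_iff₀ hNpos (by positivity)]
    nlinarith
  have h2N : 1 / (2 * (N : ℝ)) ≤ 1 / 2 := by
    rw [div_le_div_iff₀ (by positivity) (by norm_num)]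
    have : (1 : ℝ) ≤ N := by exact_mod_cast hN1
    linarith
  have hshL : ∀ p, |(sh p : ℝ) / N| ≤ Λ := by
    intro p
    have h1 := hsh p
    have h2 := hLg p
    have h3 : |(sh p : ℝ) / N| ≤ |Lg p| + |Lg p - (sh p : ℝ) / N| := by
      have h4 : (sh p : ℝ) / N = Lg p - (Lg p - (sh p : ℝ) / N) := by ring
      calc |(sh p : ℝ) / N| = |Lg p - (Lg p - (sh p : ℝ) / N)| := by rw [← h4]
        _ ≤ |Lg p| + |Lg p - (sh p : ℝ) / N| := abs_sub _ _
    linarith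
  have hshA : ∀ p, |sh p| ≤ (A : ℤ) := by
    intro p
    have h1 := hshL p
    rw [abs_div, abs_of_pos hNpos, div_le_iff₀ hNpos] at h1
    have h2 : |((sh p : ℤ) : ℝ)| ≤ ((A : ℤ) : ℝ) := by
      push_cast
      linarith
    exact_mod_cast h2
  have hsh2 : sh 2 = 0 := by
    have : Lg 2 = 0 := by
      show Real.log (‖m 2 2‖ / ‖m 2 2‖) = 0
      rw [div_self (hpos 2).ne', Real.log_one]
    show round ((N : ℝ) * Lg 2) = 0
    rw [this, mul_zero, round_zero]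
  refine ⟨sh 0, sh 1, hshA 0, hshA 1, fun i j hi hj => ?_⟩
  set c : ℝ := ‖m 2 2‖ with hc
  have hc0 : 0 < c := hpos 2
  have hcinv : c⁻¹ ≤ 2 * H ^ 2 := by
    rw [inv_eq_one_div, div_le_iff₀ hc0]
    exact hlow 2
  have hi' : (i : ℝ) / N ≤ n := by
    rw [div_le_iff₀ hNpos]
    exact_mod_cast hi.le
  have hj' : (j : ℝ) / N ≤ n := by
    rw [div_le_iff₀ hNpos]
    exact_mod_cast hj.le
  have hi0 : 0 ≤ (i : ℝ) / N := by positivity
  have hj0 : 0 ≤ (j : ℝ) / N := by positivity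
  have hn0' : (0 : ℝ) ≤ n := Nat.cast_nonneg n
  set x := xe n N i j with hx
  set x' := xe n N (i + sh 0) (j + sh 1) with hx'
  have ex0 : x 0 = 3 * n + (i : ℝ) / N := by simp [hx, xe]
  have ex1 : x 1 = n + (j : ℝ) / N := by simp [hx, xe]
  have ex2 : x 2 = 0 := by simp [hx, xe]
  have ex0' : x' 0 = 3 * n + (i : ℝ) / N + (sh 0 : ℝ) / N := by
    simp [hx', xe, add_div, add_assoc]
  have ex1' : x' 1 = n + (j : ℝ) / N + (sh 1 : ℝ) / N := by
    simp [hx', xe, add_div, add_assoc]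
  have ex2' : x' 2 = 0 := by simp [hx', xe]
  have hdiag : ∀ p, x p - x' p = -((sh p : ℝ) / N) := by
    intro p
    fin_cases p
    · show x 0 - x' 0 = -((sh 0 : ℝ) / N)
      rw [ex0, ex0']; ring
    · show x 1 - x' 1 = -((sh 1 : ℝ) / N)
      rw [ex1, ex1']; ring
    · show x 2 - x' 2 = -((sh 2 : ℝ) / N)
      rw [ex2, ex2', hsh2]; simp
  have hs0 := abs_le.1 (hshL 0)
  have hs1 := abs_le.1 (hshL 1)
  have hupper : ∀ p q : Fin 3, p < q → x q - x' p ≤ Λ - n := by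
    intro p q hpq
    have h01 : x 1 - x' 0 ≤ Λ - n := by rw [ex1, ex0']; linarith [hs0.1]
    have h02 : x 2 - x' 0 ≤ Λ - n := by rw [ex2, ex0']; linarith [hs0.1]
    have h12 : x 2 - x' 1 ≤ Λ - n := by rw [ex2, ex1']; linarith [hs1.1]
    fin_cases p <;> fin_cases q <;> first | exact absurd hpq (by decide) | assumption
  have hΛ0 : 0 ≤ Λ := by linarith
  have hlower : ∀ p q : Fin 3, q < p → x q - x' p ≤ 4 * n + Λ := by
    intro p q hpq
    have h10 : x 0 - x' 1 ≤ 4 * n + Λ := by rw [ex0, ex1']; linarith [hs1.1]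
    have h20 : x 0 - x' 2 ≤ 4 * n + Λ := by rw [ex0, ex2']; linarith
    have h21 : x 1 - x' 2 ≤ 4 * n + Λ := by rw [ex1, ex2']; linarith
    fin_cases p <;> fin_cases q <;> first | exact absurd hpq (by decide) | assumption
  let v : M3 := Matrix.of (fun p q => ((c⁻¹ : ℝ) : ℂ) * m p q * ((Real.exp (x q - x' p) : ℝ) : ℂ))
  let d0 : M3 := Matrix.diagonal (fun p => m p p / (‖m p p‖ : ℂ))
  have hvapp : ∀ p q, v p q = ((c⁻¹ : ℝ) : ℂ) * m p q * ((Real.exp (x q - x' p) : ℝ) : ℂ) :=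
    fun p q => rfl
  have hvn : ∀ p q, ‖v p q‖ = c⁻¹ * ‖m p q‖ * Real.exp (x q - x' p) := by
    intro p q
    rw [hvapp, norm_mul, norm_mul, Complex.norm_real, Complex.norm_real, Real.norm_eq_abs,
      Real.norm_eq_abs, abs_of_pos (inv_pos.2 hc0), abs_of_pos (Real.exp_pos _)]
  refine ⟨(c : ℂ), v, d0, by exact_mod_cast hc0.ne', ?_, ?_, ?_⟩
  · show star d0 * d0 = 1
    rw [Matrix.star_eq_conjTranspose, Matrix.diagonal_conjTranspose, Matrix.diagonal_mul_diagonal,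
      ← Matrix.diagonal_one]
    congr 1
    funext p
    have h1 : ((‖m p p‖ : ℝ) : ℂ) ≠ 0 := by exact_mod_cast (hpos p).ne'
    have h2 : (star (m p p)) * m p p = ((‖m p p‖ : ℝ) : ℂ) ^ 2 := by
      rw [RCLike.star_def, RCLike.conj_mul]
      norm_cast
    show star (m p p / (‖m p p‖ : ℂ)) * (m p p / (‖m p p‖ : ℂ)) = 1
    rw [star_div₀]
    have h3 : star ((‖m p p‖ : ℝ) : ℂ) = ((‖m p p‖ : ℝ) : ℂ) := by
      rw [RCLike.star_def]
      exact Complex.conj_ofReal _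
    rw [h3, div_mul_div_comm, h2, sq, div_self (mul_ne_zero h1 h1)]
  · have hent : ∀ p q, ‖(v - d0) p q‖ ≤ e / 9 := by
      intro p q
      rcases lt_trichotomy p q with h | h | h
      · have h1 : d0 p q = 0 := Matrix.diagonal_apply_ne _ h.ne
        rw [Matrix.sub_apply, h1, sub_zero, hvn]
        calc c⁻¹ * ‖m p q‖ * Real.exp (x q - x' p) ≤ 2 * H ^ 2 * H * Real.exp (Λ - n) :=
              mul3_le (inv_pos.2 hc0).le (norm_nonneg _) (Real.exp_pos _).le hcinv (hmH p q)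
                (Real.exp_le_exp.2 (hupper p q h))
          _ = 2 * H ^ 3 * Real.exp (Λ - n) := by ring
          _ ≤ e / 9 := hup
      · subst h
        have h1 : d0 p p = m p p / (‖m p p‖ : ℂ) := Matrix.diagonal_apply_eq _ _
        have h2 : ((‖m p p‖ : ℝ) : ℂ) ≠ 0 := by exact_mod_cast (hpos p).ne'
        have h3 : (v - d0) p p = (m p p / (‖m p p‖ : ℂ)) *
            (((Real.exp (Lg p - (sh p : ℝ) / N) - 1 : ℝ)) : ℂ) := by
          rw [Matrix.sub_apply, h1, hvapp, hdiag]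
          have h4 : c⁻¹ * Real.exp (-((sh p : ℝ) / N)) =
              Real.exp (Lg p - (sh p : ℝ) / N) / ‖m p p‖ := by
            rw [hexpL p, sub_eq_add_neg, Real.exp_add]
            have := (Real.exp_pos (Lg p)).ne'
            field_simp
          calc ((c⁻¹ : ℝ) : ℂ) * m p p * ((Real.exp (-((sh p : ℝ) / N)) : ℝ) : ℂ) -
              m p p / (‖m p p‖ : ℂ) = m p p * (((c⁻¹ * Real.exp (-((sh p : ℝ) / N)) : ℝ)) : ℂ) -
              m p p / (‖m p p‖ : ℂ) := by push_cast; ring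
            _ = _ := by
              rw [h4]
              push_cast
              ring
        have h5 : ‖m p p / (‖m p p‖ : ℂ)‖ = 1 := by
          rw [norm_div, Complex.norm_real, norm_norm, div_self (hpos p).ne']
        rw [h3, norm_mul, h5, one_mul, Complex.norm_real, Real.norm_eq_abs]
        have h6 := hsh p
        have h7 := Real.abs_exp_sub_one_le (x := Lg p - (sh p : ℝ) / N) (by linarith)
        have h8 : 2 * (1 / (2 * (N : ℝ))) = 1 / N := by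
          field_simp
        linarith
      · have h1 : d0 p q = 0 := Matrix.diagonal_apply_ne _ h.ne'
        rw [Matrix.sub_apply, h1, sub_zero, hvn]
        calc c⁻¹ * ‖m p q‖ * Real.exp (x q - x' p) ≤ 2 * H ^ 2 * d * Real.exp (4 * n + Λ) :=
              mul3_le (inv_pos.2 hc0).le (norm_nonneg _) (Real.exp_pos _).le hcinv (hl p q h)
                (Real.exp_le_exp.2 (hlower p q h))
          _ = d * (2 * H ^ 2 * Real.exp (4 * n + Λ)) := by ring
          _ ≤ e / 9 := hd2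
    have h1 := hs_le_of_entries hent
    have h2 : 9 * (e / 9) ^ 2 ≤ e ^ 2 := by nlinarith [sq_nonneg e]
    exact h1.trans h2
  · rw [D_eq, D_eq]
    ext p q
    rw [Matrix.mul_diagonal, Matrix.smul_apply, Matrix.diagonal_mul, hvapp, smul_eq_mul]
    have h1 : ((c : ℝ) : ℂ) ≠ 0 := by exact_mod_cast hc0.ne'
    have h2 : Real.exp (x q) = Real.exp (x' p) * Real.exp (x q - x' p) := by
      rw [← Real.exp_add]
      congr 1
      ring
    have h3 : ((Real.exp (x q) : ℝ) : ℂ) =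
        ((Real.exp (x' p) : ℝ) : ℂ) * ((Real.exp (x q - x' p) : ℝ) : ℂ) := by
      rw [h2]
      push_cast
      ring
    calc m p q * ((Real.exp (x q) : ℝ) : ℂ) =
        m p q * (((Real.exp (x' p) : ℝ) : ℂ) * ((Real.exp (x q - x' p) : ℝ) : ℂ)) := by rw [h3]
      _ = ((c : ℝ) : ℂ) * ((c : ℝ) : ℂ)⁻¹ *
          (m p q * (((Real.exp (x' p) : ℝ) : ℂ) * ((Real.exp (x q - x' p) : ℝ) : ℂ))) := by
        rw [mul_inv_cancel₀ h1, one_mul]
      _ = _ := by
        rw [Complex.ofReal_inv]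
        ring

end Pool.Agent.Helper35.AM
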