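import Pool.Agent.Helper35.AM.Basic
import Pool.Agent.Helper35.AM.Shift

/-!
# AM-U: an almost triangular unitary matrix is almost diagonal (project NI, MP_0f6f3f_an)

PROOF IN WORDS (`near_diag`). Let `m` be unitary with entries below the diagonal at most `d <= 1/4` in modulus. Rows and columns
of `m` are unit vectors. First column: `|m00|^2 = 1 - |m10|^2 - |m20|^2 >= 1 - 2 d^2`; first row:
`|m01|^2 + |m02|^2 = 1 - |m00|^2 <= 2 d^2`. Last row: `|m22|^2 >= 1 - 2 d^2`, last column: `|m12|^2 <= 2 d^2`. Second row: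
`|m11|^2 = 1 - |m10|^2 - |m12|^2 >= 1 - 3 d^2`. So all the off-diagonal entries are at most `2 d`, and `1 - |m_ii| <= 1 - |m_ii|^2 <= 3 d^2 <= d`.
Let `d0 = diag (m_ii/|m_ii|)`, unitary. For `D = D n N i j` (a diagonal matrix with positive entries, all the quotients of entries
at most `T = exp (4 n + 2)`) put `v = D^-1 m D`, `v_pq = m_pq D_q/D_p`: off the diagonal `|v_pq| <= 2 d T`, on the diagonal
`|v_pp - d0_pp| = 1 - |m_pp| <= d`. So `hs (v - d0) <= 9 (2 d T)^2 <= e^2` for `d` small.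
-/

open Finset Matrix

namespace Pool.Agent.Helper35.AM

/-- the entries of `D` -/
private noncomputable def nu_d (n N : ℕ) (i j : ℕ) : Fin 3 → ℝ :=
  ![Real.exp (3 * n + (i : ℝ) / N), Real.exp (n + (j : ℝ) / N), 1]

private lemma nu_D (n N : ℕ) (i j : ℕ) : D n N i j = Matrix.diagonal (fun p => ((nu_d n N i j p : ℝ) : ℂ)) := by
  unfold D nu_d
  congr 1
  funext p
  fin_cases p <;> simp

private lemma nu_d_ge (n N i j : ℕ) (p : Fin 3) : 1 ≤ nu_d n N i j p := by
  unfold nu_d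
  fin_cases p
  · exact Real.one_le_exp (by positivity)
  · exact Real.one_le_exp (by positivity)
  · exact le_refl (1 : ℝ)

private lemma nu_d_le {n N i j : ℕ} (hN : 1 ≤ N) (hi : i < n * N) (hj : j < n * N) (p : Fin 3) :
    nu_d n N i j p ≤ Real.exp (4 * n) := by
  have hN0 : (0 : ℝ) < N := by exact_mod_cast hN
  have h1 : (i : ℝ) / N ≤ n := by
    rw [div_le_iff₀ hN0]
    exact_mod_cast hi.le
  have h2 : (j : ℝ) / N ≤ n := by
    rw [div_le_iff₀ hN0]
    exact_mod_cast hj.le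
  have hn : (0 : ℝ) ≤ n := by positivity
  unfold nu_d
  fin_cases p
  · exact Real.exp_le_exp.2 (by linarith)
  · exact Real.exp_le_exp.2 (by linarith)
  · exact Real.one_le_exp (by positivity)

private lemma nu_col {m : M3} (hm : Un m) (j : Fin 3) : ‖m 0 j‖ ^ 2 + ‖m 1 j‖ ^ 2 + ‖m 2 j‖ ^ 2 = 1 := by
  have h := congrFun (congrFun hm j) j
  rw [Matrix.mul_apply, Matrix.one_apply_eq, Fin.sum_univ_three] at h
  simp only [Matrix.star_apply, RCLike.star_def, Complex.conj_mul'] at h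
  exact_mod_cast h

private lemma nu_row {m : M3} (hm : Un m) (i : Fin 3) : ‖m i 0‖ ^ 2 + ‖m i 1‖ ^ 2 + ‖m i 2‖ ^ 2 = 1 := by
  have h := nu_col hm.adj i
  simpa only [Matrix.star_apply, norm_star] using h

private lemma nu_un {m : M3} (h : ∀ p, m p p ≠ 0) : Un (Matrix.diagonal (fun p => m p p / ((‖m p p‖ : ℝ) : ℂ))) := by
  unfold Un
  rw [Matrix.star_eq_conjTranspose, Matrix.diagonal_conjTranspose, Matrix.diagonal_mul_diagonal, ← Matrix.diagonal_one]
  congr 1
  funext p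
  have h1 : ((‖m p p‖ : ℝ) : ℂ) ≠ 0 := by
    rw [Complex.ofReal_ne_zero]
    exact norm_ne_zero_iff.2 (h p)
  simp only [Pi.star_apply, star_div₀, RCLike.star_def, Complex.conj_ofReal]
  rw [div_mul_div_comm, Complex.conj_mul', div_eq_one_iff_eq (mul_ne_zero h1 h1)]
  ring

theorem near_diag (n N : ℕ) (hN : 1 ≤ N) (e : ℝ) (he : 0 < e) : ∃ d : ℝ, 0 < d ∧ ∀ m : M3, Un m →
    (∀ i j : Fin 3, j < i → ‖m i j‖ ≤ d) → ∀ i j : ℕ, i < n * N → j < n * N →
      ∃ v d0 : M3, Un d0 ∧ hs (v - d0) ≤ e ^ 2 ∧ m * D n N i j = D n N i j * v := by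
  set T : ℝ := Real.exp (4 * n) with hT
  have hT1 : 1 ≤ T := Real.one_le_exp (by positivity)
  have hT0 : 0 < T := by linarith
  refine ⟨min (1 / 4) (e / (6 * T)), lt_min (by norm_num) (by positivity), ?_⟩
  set d : ℝ := min (1 / 4) (e / (6 * T)) with hd
  have hd0 : 0 < d := lt_min (by norm_num) (by positivity)
  have hd4 : d ≤ 1 / 4 := min_le_left _ _
  have hde : 6 * (d * T) ≤ e := by
    have h1 : d ≤ e / (6 * T) := min_le_right _ _
    rw [le_div_iff₀ (by positivity)] at h1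
    linarith
  intro m hm hlow i j hi hj
  have hdT : d ≤ d * T := le_mul_of_one_le_right hd0.le hT1
  -- squares of the entries
  have hsq : ∀ {x : ℝ}, 0 ≤ x → x ≤ d → x ^ 2 ≤ d ^ 2 := fun h0 h1 => pow_le_pow_left₀ h0 h1 2
  have l10 := hsq (norm_nonneg _) (hlow 1 0 (by decide))
  have l20 := hsq (norm_nonneg _) (hlow 2 0 (by decide))
  have l21 := hsq (norm_nonneg _) (hlow 2 1 (by decide))
  have c0 := nu_col hm 0
  have c2 := nu_col hm 2
  have r0 := nu_row hm 0
  have r1 := nu_row hm 1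
  have r2 := nu_row hm 2
  have p01 := sq_nonneg ‖m 0 1‖
  have p02 := sq_nonneg ‖m 0 2‖
  have p12 := sq_nonneg ‖m 1 2‖
  have p10 := sq_nonneg ‖m 1 0‖
  have hdiag : ∀ p, 1 - 3 * d ^ 2 ≤ ‖m p p‖ ^ 2 := by
    intro p
    fin_cases p
    · change 1 - 3 * d ^ 2 ≤ ‖m 0 0‖ ^ 2
      linarith
    · change 1 - 3 * d ^ 2 ≤ ‖m 1 1‖ ^ 2
      linarith
    · change 1 - 3 * d ^ 2 ≤ ‖m 2 2‖ ^ 2
      linarith
  have hoff2 : ∀ p q, p ≠ q → ‖m p q‖ ^ 2 ≤ 2 * d ^ 2 := by
    intro p q hpq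
    fin_cases p <;> fin_cases q
    · exact absurd rfl hpq
    · change ‖m 0 1‖ ^ 2 ≤ 2 * d ^ 2
      linarith
    · change ‖m 0 2‖ ^ 2 ≤ 2 * d ^ 2
      linarith
    · change ‖m 1 0‖ ^ 2 ≤ 2 * d ^ 2
      linarith
    · exact absurd rfl hpq
    · change ‖m 1 2‖ ^ 2 ≤ 2 * d ^ 2
      linarith
    · change ‖m 2 0‖ ^ 2 ≤ 2 * d ^ 2
      linarith
    · change ‖m 2 1‖ ^ 2 ≤ 2 * d ^ 2
      linarith
    · exact absurd rfl hpq
  have hoff : ∀ p q, p ≠ q → ‖m p q‖ ≤ 2 * d := by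
    intro p q hpq
    refine abs_le_of_sq_le_sq' ?_ (by positivity) |>.2
    have h1 := hoff2 p q hpq
    have h2 : (2 * d) ^ 2 = 4 * d ^ 2 := by ring
    have h3 := sq_nonneg d
    rw [h2]
    linarith
  have hd2 : 3 * d ^ 2 ≤ d := by
    have h1 := mul_le_mul_of_nonneg_left hd4 hd0.le
    rw [sq]
    linarith
  have hne : ∀ p, m p p ≠ 0 := by
    intro p h0
    have := hdiag p
    rw [h0, norm_zero] at this
    norm_num at this
    linarith
  have hle1 : ∀ p, ‖m p p‖ ≤ 1 := by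
    intro p
    have hr := nu_row hm p
    have h1 : ‖m p p‖ ^ 2 ≤ 1 := by
      fin_cases p
      · change ‖m 0 0‖ ^ 2 ≤ 1
        linarith
      · change ‖m 1 1‖ ^ 2 ≤ 1
        have := sq_nonneg ‖m 1 2‖
        linarith
      · change ‖m 2 2‖ ^ 2 ≤ 1
        have := sq_nonneg ‖m 2 0‖
        have := sq_nonneg ‖m 2 1‖
        linarith
    exact (sq_le_one_iff₀ (norm_nonneg _)).1 h1
  set x := nu_d n N i j with hx
  have hx1 : ∀ p, 1 ≤ x p := nu_d_ge n N i j
  have hxT : ∀ p, x p ≤ T := nu_d_le hN hi hj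
  refine ⟨Matrix.of (fun p q => m p q * ((x q : ℝ) : ℂ) / ((x p : ℝ) : ℂ)),
    Matrix.diagonal (fun p => m p p / ((‖m p p‖ : ℝ) : ℂ)), nu_un hne, ?_, ?_⟩
  · have hent : ∀ p q : Fin 3, ‖(Matrix.of (fun p q => m p q * ((x q : ℝ) : ℂ) / ((x p : ℝ) : ℂ)) -
        Matrix.diagonal (fun p => m p p / ((‖m p p‖ : ℝ) : ℂ))) p q‖ ≤ 2 * (d * T) := by
      intro p q
      have hxp : (0 : ℝ) < x p := by linarith [hx1 p]
      have hxp' : ((x p : ℝ) : ℂ) ≠ 0 := by
        rw [Complex.ofReal_ne_zero]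
        exact hxp.ne'
      rw [Matrix.sub_apply, Matrix.of_apply]
      by_cases hpq : p = q
      · subst hpq
        rw [Matrix.diagonal_apply_eq, mul_div_assoc, div_self hxp', mul_one]
        have hn0 : (0 : ℝ) < ‖m p p‖ := norm_pos_iff.2 (hne p)
        have hn0' : ((‖m p p‖ : ℝ) : ℂ) ≠ 0 := by
          rw [Complex.ofReal_ne_zero]
          exact hn0.ne'
        have e1 : m p p - m p p / ((‖m p p‖ : ℝ) : ℂ) = m p p / ((‖m p p‖ : ℝ) : ℂ) * (((‖m p p‖ - 1 : ℝ)) : ℂ) := by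
          push_cast
          field_simp
        rw [e1, norm_mul, norm_div, Complex.norm_real, Complex.norm_real, norm_norm, div_self hn0.ne', one_mul,
          Real.norm_eq_abs, abs_of_nonpos (by linarith [hle1 p])]
        have h1 : 1 - ‖m p p‖ ≤ 1 - ‖m p p‖ ^ 2 := by
          have h5 := mul_le_mul_of_nonneg_left (hle1 p) (norm_nonneg (m p p))
          rw [sq]
          linarith
        have h2 := hdiag p
        have h3 : 0 ≤ d * T := by positivity
        linarith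
      · rw [Matrix.diagonal_apply_ne _ hpq, sub_zero, norm_div, norm_mul, Complex.norm_real, Complex.norm_real,
          Real.norm_of_nonneg (by linarith [hx1 q]), Real.norm_of_nonneg hxp.le]
        have h1 := hoff p q hpq
        have h2 : x q / x p ≤ T := by
          rw [div_le_iff₀ hxp]
          have := mul_le_mul_of_nonneg_left (hx1 p) hT0.le
          linarith [hxT q]
        calc ‖m p q‖ * x q / x p = ‖m p q‖ * (x q / x p) := by ring
          _ ≤ (2 * d) * T := mul_le_mul h1 h2 (div_nonneg (by linarith [hx1 q]) hxp.le) (by positivity)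
          _ = _ := by ring
    refine (hs_le_of_entries hent).trans ?_
    have h3 : 0 ≤ 6 * (d * T) := by positivity
    have h4 := pow_le_pow_left₀ h3 hde 2
    have h5 : 9 * (2 * (d * T)) ^ 2 = (6 * (d * T)) ^ 2 := by ring
    rw [h5]
    exact h4
  · rw [nu_D, ← hx]
    ext p q
    rw [Matrix.mul_diagonal, Matrix.diagonal_mul, Matrix.of_apply]
    have hxp' : ((x p : ℝ) : ℂ) ≠ 0 := by
      rw [Complex.ofReal_ne_zero]
      linarith [hx1 p]
    field_simp

end Pool.Agent.Helper35.AM
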