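import Pool.Agent.Helper35.AM.Growth
import Pool.Agent.Helper35.AM.Kap
import Pool.Agent.Helper35.AM.Shift
import Pool.Agent.Helper35.AM.NearU
import Pool.Agent.Helper35.AM.Avg

/-!
# AM: right amenability (project NI, MP_0f6f3f_an, section 5)

`am`: for a proper map `iota : G -> M_3(C)`, multiplicative up to scalars of modulus one and with determinants of
modulus one, the action of `G` on the space of complete flags is amenable in the quantitative form used in the project: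
there are finitely supported probability measures `kappa k` on `G` which depend only on the flag of `k` in the
(uniformly continuous) sense of the last condition and are almost equivariant.
-/

open Finset Matrix Filter Topology

namespace Pool.Agent.Helper35.AM

variable {G : Type*} [Group G] {ι : G → M3} {L : ℕ}

theorem near_mul {v d0 : M3} (hd : Un d0) {e : ℝ} (he : 0 ≤ e) (he1 : e ≤ 1)
    (h : hs (v - d0) ≤ e ^ 2) (Y : M3) :
    (1 - e) ^ 2 * hs Y ≤ hs (Y * v) ∧ hs (Y * v) ≤ (1 + e) ^ 2 * hs Y := by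
  have hs' : Real.sqrt (hs (v - d0)) ≤ e := by
    rw [← Real.sqrt_sq he]
    exact Real.sqrt_le_sqrt h
  set s := Real.sqrt (hs Y) with hs_def
  have hs0 : 0 ≤ s := Real.sqrt_nonneg _
  have hsY : hs Y = s ^ 2 := (Real.sq_sqrt (hs_nonneg Y)).symm
  set r := Real.sqrt (hs (Y * v)) with hr_def
  have hr0 : 0 ≤ r := Real.sqrt_nonneg _
  have hrY : hs (Y * v) = r ^ 2 := (Real.sq_sqrt (hs_nonneg _)).symm
  have h1 : Real.sqrt (hs (Y * (v - d0))) ≤ s * e :=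
    (sqrt_hs_mul_le _ _).trans (mul_le_mul_of_nonneg_left hs' hs0)
  have h2 : r ≤ s + s * e := by
    have := sqrt_hs_add_le (Y * d0) (Y * (v - d0))
    rw [← mul_add, add_sub_cancel, hs_un_right hd] at this
    linarith
  have h3 : s ≤ r + s * e := by
    have := sqrt_hs_sub_le (Y * v) (Y * (v - d0))
    rw [← mul_sub, sub_sub_cancel, hs_un_right hd] at this
    linarith
  rw [hsY, hrY]
  constructor
  · have : (1 - e) * s ≤ r := by linarith
    have h0 : 0 ≤ (1 - e) * s := mul_nonneg (by linarith) hs0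
    calc (1 - e) ^ 2 * s ^ 2 = ((1 - e) * s) ^ 2 := by ring
      _ ≤ r ^ 2 := by gcongr
  · calc r ^ 2 ≤ (s + s * e) ^ 2 := by gcongr
      _ = (1 + e) ^ 2 * s ^ 2 := by ring

theorem exists_small (L : ℕ) {ε : ℝ} (hε : 0 < ε) :
    ∃ e : ℝ, 0 < e ∧ e < 1 ∧ ((1 + e) ^ 2 / (1 - e) ^ 2) ^ L - 1 ≤ ε := by
  have hc : ContinuousAt (fun e : ℝ => ((1 + e) ^ 2 / (1 - e) ^ 2) ^ L - 1) 0 := by
    have h1 : ContinuousAt (fun e : ℝ => (1 + e) ^ 2) 0 := by fun_prop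
    have h2 : ContinuousAt (fun e : ℝ => (1 - e) ^ 2) 0 := by fun_prop
    exact ((h1.div h2 (by norm_num)).pow L).sub continuousAt_const
  have h0 : ((1 + (0 : ℝ)) ^ 2 / (1 - 0) ^ 2) ^ L - 1 < ε := by simpa using hε
  have hev : ∀ᶠ e in 𝓝 (0 : ℝ), ((1 + e) ^ 2 / (1 - e) ^ 2) ^ L - 1 < ε :=
    hc.eventually (gt_mem_nhds h0)
  obtain ⟨r, hr, hr'⟩ := Metric.eventually_nhds_iff.mp hev
  refine ⟨min (r / 2) (1 / 2), by positivity, ?_, ?_⟩
  · exact (min_le_right _ _).trans_lt (by norm_num)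
  · refine (hr' ?_).le
    have : (0 : ℝ) < min (r / 2) (1 / 2) := by positivity
    rw [Real.dist_eq, sub_zero, abs_of_pos this]
    exact (min_le_left _ _).trans_lt (by linarith)

theorem kap_near (hι : Rep G ι) (hL : Summable (fun g : G => ((hs (ι g))⁻¹) ^ L)) {ε : ℝ}
    (hε : 0 < ε) : ∃ e : ℝ, 0 < e ∧ ∀ X v d0 : M3, X.det ≠ 0 → (X * v).det ≠ 0 → Un d0 →
      hs (v - d0) ≤ e ^ 2 → Dist (kap ι L (X * v)) (kap ι L X) ε := by
  obtain ⟨e, he, he1, h⟩ := exists_small L hε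
  refine ⟨e, he, fun X v d0 hX hXv hd hv => ?_⟩
  have h1 : (0 : ℝ) < (1 - e) ^ 2 := by
    have : 0 < 1 - e := by linarith
    positivity
  exact (harnack hι hL hX hXv h1 (fun Y => (near_mul hd he.le he1.le hv Y).1)
    (fun Y => (near_mul hd he.le he1.le hv Y).2)).mono h

theorem D_det (n N : ℕ) (i j : ℤ) : (D n N i j).det ≠ 0 := by
  unfold D
  rw [Matrix.det_diagonal, Fin.prod_univ_three]
  simp only [Matrix.cons_val_zero, Matrix.cons_val_one, Matrix.cons_val, mul_one]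
  exact mul_ne_zero (by exact_mod_cast (Real.exp_pos _).ne') (by exact_mod_cast (Real.exp_pos _).ne')

theorem Un.det_ne {k : M3} (hk : Un k) : k.det ≠ 0 := by
  intro h
  have := hk.det
  rw [h, norm_zero] at this
  exact zero_ne_one this

/-- The averaged measures. -/
noncomputable def Pk (ι : G → M3) (L n N : ℕ) (k : M3) (g : G) : ℝ :=
  avg (n * N) (fun i j => kap ι L (k * D n N i j)) g

theorem Pk_equiv (hι : Rep G ι) (n N : ℕ) (k : M3) (h g : G) :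
    Pk ι L n N (ι h * k) g = Pk ι L n N k (h⁻¹ * g) := by
  unfold Pk avg
  simp only [mul_assoc, kap_equiv hι]

theorem kD_det {k : M3} (hk : Un k) (n N : ℕ) (i j : ℤ) : (k * D n N i j).det ≠ 0 := by
  rw [Matrix.det_mul]
  exact mul_ne_zero hk.det_ne (D_det n N i j)

theorem Pk_hasSum (hι : Rep G ι) (hL : Summable (fun g : G => ((hs (ι g))⁻¹) ^ L)) {n N : ℕ}
    (hM : 1 ≤ n * N) {k : M3} (hk : Un k) : HasSum (Pk ι L n N k) 1 :=
  avg_hasSum hM fun i j => kap_hasSum hι hL (kD_det hk n N i j)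

theorem Pk_nonneg (n N : ℕ) (k : M3) (g : G) : 0 ≤ Pk ι L n N k g :=
  avg_nonneg _ (fun _ _ _ => kap_nonneg _ _ _ _) g

omit [Group G] in
theorem sum_le_one {P : G → ℝ} (h0 : ∀ g, 0 ≤ P g) (h1 : HasSum P 1) (s : Finset G) :
    ∑ g ∈ s, P g ≤ 1 := sum_le_hasSum s (fun g _ => h0 g) h1

theorem Pk_le (hι : Rep G ι) (hL : Summable (fun g : G => ((hs (ι g))⁻¹) ^ L)) {n N : ℕ}
    (hM : 1 ≤ n * N) : ∃ C : ℝ, 0 ≤ C ∧ ∀ k : M3, Un k → ∀ g : G,
      Pk ι L n N k g ≤ C * ((hs (ι g⁻¹))⁻¹) ^ L := by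
  refine ⟨∑ i ∈ range (n * N), ∑ j ∈ range (n * N), (hs (D n N i j) * hs (D n N i j)⁻¹) ^ L, ?_, ?_⟩
  · exact Finset.sum_nonneg fun i _ => Finset.sum_nonneg fun j _ =>
      pow_nonneg (mul_nonneg (hs_nonneg _) (hs_nonneg _)) _
  · intro k hk g
    have h1 : ∀ i j : ℕ, kap ι L (k * D n N i j) g ≤
        (hs (D n N i j) * hs (D n N i j)⁻¹) ^ L * ((hs (ι g⁻¹))⁻¹) ^ L := by
      intro i j
      have := kap_le hι hL (kD_det hk n N i j) g
      rwa [hs_un_left hk, Matrix.mul_inv_rev, show k⁻¹ = star k from Matrix.inv_eq_left_inv hk,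
        hs_un_right hk.adj] at this
    have h2 : ∑ i ∈ range (n * N), ∑ j ∈ range (n * N), kap ι L (k * D n N i j) g ≤
        (∑ i ∈ range (n * N), ∑ j ∈ range (n * N), (hs (D n N i j) * hs (D n N i j)⁻¹) ^ L) *
          ((hs (ι g⁻¹))⁻¹) ^ L := by
      rw [Finset.sum_mul]
      refine Finset.sum_le_sum fun i _ => ?_
      rw [Finset.sum_mul]
      exact Finset.sum_le_sum fun j _ => h1 i j
    have h3 : 0 ≤ ∑ i ∈ range (n * N), ∑ j ∈ range (n * N), kap ι L (k * D n N i j) g :=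
      Finset.sum_nonneg fun i _ => Finset.sum_nonneg fun j _ => kap_nonneg _ _ _ _
    have hM' : (1 : ℝ) ≤ ((n * N : ℕ) : ℝ) ^ 2 := by
      have : (1 : ℝ) ≤ ((n * N : ℕ) : ℝ) := by exact_mod_cast hM
      nlinarith
    unfold Pk avg
    exact (div_le_self h3 hM').trans h2

theorem tail (hι : Rep G ι) (hL : Summable (fun g : G => ((hs (ι g))⁻¹) ^ L)) {n N : ℕ}
    (hM : 1 ≤ n * N) {ε : ℝ} (hε : 0 < ε) : ∃ S : Finset G, ∀ k : M3, Un k →
      1 - ε ≤ ∑ t ∈ S, Pk ι L n N k t := by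
  obtain ⟨C, hC, hP⟩ := Pk_le hι hL hM
  have hu : Summable (fun g : G => ((hs (ι g⁻¹))⁻¹) ^ L) := (Equiv.inv G).summable_iff.mpr hL
  obtain ⟨U, hU⟩ := hu
  have hδ : 0 < ε / (C + 1) := by positivity
  have hev : ∀ᶠ S : Finset G in atTop, U - ε / (C + 1) < ∑ t ∈ S, ((hs (ι t⁻¹))⁻¹) ^ L :=
    hU.eventually (lt_mem_nhds (by linarith))
  obtain ⟨S, hS⟩ := hev.exists
  refine ⟨S, fun k hk => ?_⟩
  have h1 : HasSum (fun t => C * ((hs (ι t⁻¹))⁻¹) ^ L - Pk ι L n N k t) (C * U - 1) :=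
    (hU.mul_left C).sub (Pk_hasSum hι hL hM hk)
  have h2 := sum_le_hasSum S (fun t _ => sub_nonneg.mpr (hP k hk t)) h1
  rw [Finset.sum_sub_distrib, ← Finset.mul_sum] at h2
  have h3 : C * (U - ∑ t ∈ S, ((hs (ι t⁻¹))⁻¹) ^ L) ≤ C * (ε / (C + 1)) :=
    mul_le_mul_of_nonneg_left (by linarith) hC
  have h4 : C * (ε / (C + 1)) ≤ ε := by
    rw [mul_div_assoc', div_le_iff₀ (by positivity)]
    nlinarith
  linarith

theorem triang (hι : Rep G ι) (hL : Summable (fun g : G => ((hs (ι g))⁻¹) ^ L)) (Q : Finset G)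
    {ε : ℝ} (hε : 0 < ε) : ∃ n N : ℕ, 1 ≤ N ∧ 1 ≤ n * N ∧ ∃ d : ℝ, 0 < d ∧ ∀ h ∈ Q, ∀ k k' : M3,
      Un k → Un k' → (∀ i j : Fin 3, j < i → ‖(star k * ι h * k') i j‖ ≤ d) →
      Dist (Pk ι L n N k) (fun t => Pk ι L n N k' (h⁻¹ * t)) ε := by
  obtain ⟨H, hH1, hH⟩ : ∃ H : ℝ, 1 ≤ H ∧ ∀ h ∈ Q, hs (ι h) ≤ H := by
    refine ⟨1 + ∑ h ∈ Q, hs (ι h), ?_, fun h hh => ?_⟩
    · have : 0 ≤ ∑ h ∈ Q, hs (ι h) := Finset.sum_nonneg fun _ _ => hs_nonneg _
      linarith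
    · have := Finset.single_le_sum (f := fun h => hs (ι h)) (fun _ _ => hs_nonneg _) hh
      linarith
  obtain ⟨e, he, hnear⟩ := kap_near hι hL (half_pos hε)
  obtain ⟨N, hN, A, n0, hsh⟩ := shift_exists H e hH1 he
  obtain ⟨n1, hn1⟩ := exists_nat_gt (2 * (A + A) / (ε / 2))
  set n := max (max n0 n1) 1 with hn
  have hn0 : n0 ≤ n := (le_max_left _ _).trans (le_max_left _ _)
  have hn1' : n1 ≤ n := (le_max_right _ _).trans (le_max_left _ _)
  have hn1'' : 1 ≤ n := le_max_right _ _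
  have hM : 1 ≤ n * N := Nat.mul_pos hn1'' hN
  obtain ⟨d, hd, hm⟩ := hsh n hn0
  refine ⟨n, N, hN, hM, d, hd, fun h hh k k' hk hk' htri => ?_⟩
  have hdet : ‖(star k * ι h * k').det‖ = 1 := by
    rw [Matrix.det_mul, Matrix.det_mul, norm_mul, norm_mul, hk.adj.det, hι.det, hk'.det]
    norm_num
  have hhs : hs (star k * ι h * k') ≤ H := by
    rw [hs_un_right hk', hs_un_left hk.adj]
    exact hH h hh
  obtain ⟨a, b, ha, hb, hab⟩ := hm _ hdet hhs htri
  have hkm : k * (star k * ι h * k') = ι h * k' := by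
    calc k * (star k * ι h * k') = (k * star k) * (ι h * k') := by simp only [mul_assoc]
      _ = ι h * k' := by rw [hk.mul_star, one_mul]
  have e1 : (fun t => Pk ι L n N k' (h⁻¹ * t)) = Pk ι L n N (ι h * k') := by
    funext t
    rw [Pk_equiv hι]
  rw [e1]
  have step1 : Dist (avg (n * N) (fun i j => kap ι L (ι h * k' * D n N i j)))
      (avg (n * N) (fun i j => kap ι L (k * D n N (i + a) (j + b)))) (ε / 2) := by
    refine avg_dist hM fun i j hi hj => ?_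
    obtain ⟨c, v, d0, hc, hd0, hv, heq⟩ := hab i j hi hj
    have e2 : ι h * k' * D n N i j = c • (k * D n N (i + a) (j + b) * v) := by
      rw [← hkm, mul_assoc, heq, Matrix.mul_smul, mul_assoc]
    have hne : (ι h * k' * D n N i j).det ≠ 0 := by
      rw [Matrix.det_mul, Matrix.det_mul]
      exact mul_ne_zero (mul_ne_zero (hι.det_ne h) hk'.det_ne) (D_det n N i j)
    have hne2 : (k * D n N (i + a) (j + b) * v).det ≠ 0 := by
      intro h0
      apply hne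
      rw [e2, Matrix.det_smul, h0, mul_zero]
    rw [e2, kap_smul ι L _ hc]
    exact hnear _ v d0 (kD_det hk n N _ _) hne2 hd0 hv
  have step2 : Dist (avg (n * N) (fun i j => kap ι L (k * D n N (i + a) (j + b))))
      (avg (n * N) (fun i j => kap ι L (k * D n N i j))) (2 * (|a| + |b|) / ((n * N : ℕ) : ℝ)) :=
    avg_shift hM (fun i j g => kap_nonneg ι L _ g)
      (fun i j s => sum_le_one (fun g => kap_nonneg ι L _ g) (kap_hasSum hι hL (kD_det hk n N i j)) s) a b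
  have hle : (2 * (|a| + |b|) / ((n * N : ℕ) : ℝ) : ℝ) ≤ ε / 2 := by
    have ha' : ((|a| : ℤ) : ℝ) ≤ A := by exact_mod_cast ha
    have hb' : ((|b| : ℤ) : ℝ) ≤ A := by exact_mod_cast hb
    have hnn : (n1 : ℝ) ≤ ((n * N : ℕ) : ℝ) := by
      have : n1 ≤ n * N := hn1'.trans (Nat.le_mul_of_pos_right n hN)
      exact_mod_cast this
    have hpos : (0 : ℝ) < ((n * N : ℕ) : ℝ) := by exact_mod_cast hM
    rw [div_lt_iff₀ (by positivity)] at hn1
    rw [div_le_iff₀ hpos]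
    have : (n1 : ℝ) * (ε / 2) ≤ ((n * N : ℕ) : ℝ) * (ε / 2) := by gcongr
    push_cast at *
    linarith
  have hfin := (step1.trans (step2.mono hle)).symm
  have : ε / 2 + ε / 2 = ε := by ring
  rw [this] at hfin
  exact hfin

theorem close (hι : Rep G ι) (hL : Summable (fun g : G => ((hs (ι g))⁻¹) ^ L)) {n N : ℕ}
    (hN : 1 ≤ N) (hM : 1 ≤ n * N) {ε : ℝ} (hε : 0 < ε) : ∃ d : ℝ, 0 < d ∧ ∀ k k' : M3, Un k → Un k' →
      (∀ i j : Fin 3, j < i → ‖(star k * k') i j‖ ≤ d) →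
      Dist (Pk ι L n N k) (Pk ι L n N k') ε := by
  obtain ⟨e, he, hnear⟩ := kap_near hι hL hε
  obtain ⟨d, hd, hm⟩ := near_diag n N hN e he
  refine ⟨d, hd, fun k k' hk hk' htri => ?_⟩
  have hkm : k * (star k * k') = k' := by
    rw [← mul_assoc, hk.mul_star, one_mul]
  refine Dist.symm (avg_dist hM fun i j hi hj => ?_)
  obtain ⟨v, d0, hd0, hv, heq⟩ := hm _ (hk.adj.mul hk') htri i j hi hj
  have e2 : k' * D n N i j = k * D n N i j * v := by
    calc k' * D n N i j = k * ((star k * k') * D n N i j) := by rw [← mul_assoc, hkm]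
      _ = k * D n N i j * v := by rw [heq, mul_assoc]
  have hne2 : (k * D n N i j * v).det ≠ 0 := by
    rw [← e2]
    exact kD_det hk' n N i j
  rw [e2]
  exact hnear _ v d0 (kD_det hk n N _ _) hne2 hd0 hv

/-- PROP AM. -/
theorem am (hι : Rep G ι) (Q : Finset G) {ε : ℝ} (hε : 0 < ε) :
    ∃ (S : Finset G) (κ : M3 → G → ℝ) (d : ℝ), 0 < d ∧ (∀ k t, 0 ≤ κ k t) ∧
      (∀ k t, t ∉ S → κ k t = 0) ∧ (∀ k, Un k → ∑ t ∈ S, κ k t = 1) ∧
      (∀ h ∈ Q, ∀ k k' : M3, Un k → Un k' →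
        (∀ i j : Fin 3, j < i → ‖(star k * ι h * k') i j‖ ≤ d) →
        ∀ s : Finset G, ∑ t ∈ s, |κ k t - κ k' (h⁻¹ * t)| ≤ ε) ∧
      (∀ ε' : ℝ, 0 < ε' → ∃ d' : ℝ, 0 < d' ∧ ∀ k k' : M3, Un k → Un k' →
        (∀ i j : Fin 3, j < i → ‖(star k * k') i j‖ ≤ d') →
        ∑ t ∈ S, |κ k t - κ k' t| ≤ ε') := by
  obtain ⟨L, hL⟩ := growth hι
  obtain ⟨n, N, hN, hM, d, hd, htri⟩ := triang hι hL Q (half_pos hε)
  obtain ⟨S, hS⟩ := tail hι hL hM (show 0 < min (ε / 8) (1 / 2) by positivity)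
  have hS1 : ∀ k : M3, Un k → 1 / 2 ≤ ∑ t ∈ S, Pk ι L n N k t := by
    intro k hk
    have h1 := hS k hk
    have h2 : min (ε / 8) (1 / 2) ≤ (1 / 2 : ℝ) := min_le_right _ _
    linarith
  have htr : ∀ k : M3, Un k → Dist (trunc S (Pk ι L n N k)) (Pk ι L n N k) (ε / 4) := by
    intro k hk
    refine (trunc_dist S (Pk_nonneg n N k) (Pk_hasSum hι hL hM hk) (min_le_right (ε / 8) (1 / 2))
      (hS k hk)).mono ?_
    have h2 : min (ε / 8) (1 / 2) ≤ ε / 8 := min_le_left _ _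
    linarith
  refine ⟨S, fun k => trunc S (Pk ι L n N k), d, hd, fun k t => trunc_nonneg S (Pk_nonneg n N k) t,
    fun k t ht => ?_, fun k hk => trunc_sum S (by have := hS1 k hk; linarith), ?_, ?_⟩
  · unfold trunc
    exact if_neg ht
  · intro h hh k k' hk hk' htr' s
    have h1 := htr k hk
    have h2 := htri h hh k k' hk hk' htr'
    have h3 := ((htr k' hk').comp (Equiv.mulLeft h⁻¹)).symm
    simp only [Equiv.coe_mulLeft] at h3
    have h4 := ((h1.trans h2).trans h3) s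
    have : ε / 4 + ε / 2 + ε / 4 = ε := by ring
    rw [this] at h4
    exact h4
  · intro ε' hε'
    obtain ⟨d', hd', hc⟩ := close hι hL hN hM (show 0 < ε' / 4 by positivity)
    refine ⟨d', hd', fun k k' hk hk' htr' => ?_⟩
    have := trunc_close S (Pk_nonneg n N k) (Pk_nonneg n N k') (hS1 k hk) (hS1 k' hk')
      (hc k k' hk hk' htr')
    linarith

/-- PROP AM for a proper projective representation. -/
theorem am_proj {ι : G → M3} (hmul : ∀ g h, ∃ c : ℂ, ‖c‖ = 1 ∧ ι (g * h) = c • (ι g * ι h))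
    (hdet : ∀ g, ‖(ι g).det‖ = 1) (hfin : ∀ R : ℝ, {g | ∑ i, ∑ j, ‖ι g i j‖ ^ 2 ≤ R}.Finite)
    (Q : Finset G) {ε : ℝ} (hε : 0 < ε) :
    ∃ (S : Finset G) (κ : M3 → G → ℝ) (d : ℝ), 0 < d ∧ (∀ k t, 0 ≤ κ k t) ∧
      (∀ k t, t ∉ S → κ k t = 0) ∧ (∀ k, star k * k = 1 → ∑ t ∈ S, κ k t = 1) ∧
      (∀ h ∈ Q, ∀ k k' : M3, star k * k = 1 → star k' * k' = 1 →
        (∀ i j : Fin 3, j < i → ‖(star k * ι h * k') i j‖ ≤ d) →
        ∀ s : Finset G, ∑ t ∈ s, |κ k t - κ k' (h⁻¹ * t)| ≤ ε) ∧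
      (∀ ε' : ℝ, 0 < ε' → ∃ d' : ℝ, 0 < d' ∧ ∀ k k' : M3, star k * k = 1 → star k' * k' = 1 →
        (∀ i j : Fin 3, j < i → ‖(star k * k') i j‖ ≤ d') →
        ∑ t ∈ S, |κ k t - κ k' t| ≤ ε') := by
  obtain ⟨c, hc, h1⟩ := hmul 1 1
  rw [mul_one] at h1
  have hc0 : c ≠ 0 := by
    intro h
    rw [h, norm_zero] at hc
    exact zero_ne_one hc
  have hu : IsUnit (ι 1).det := by
    refine isUnit_iff_ne_zero.mpr fun h => ?_
    have := hdet 1
    rw [h, norm_zero] at this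
    exact zero_ne_one this
  have h2 : c • ι 1 = 1 := by
    have h3 : (ι 1)⁻¹ * ι 1 = (ι 1)⁻¹ * (c • (ι 1 * ι 1)) := congrArg _ h1
    rw [Matrix.mul_smul, ← mul_assoc, Matrix.nonsing_inv_mul _ hu, one_mul] at h3
    exact h3.symm
  have hι : Rep G (fun g => c • ι g) := by
    refine ⟨h2, ?_, ?_, ?_⟩
    · intro g h
      obtain ⟨c', hc', h'⟩ := hmul g h
      refine ⟨c' * c⁻¹, by rw [norm_mul, norm_inv, hc, hc']; norm_num, ?_⟩
      rw [h', Matrix.smul_mul, Matrix.mul_smul, smul_smul, smul_smul, smul_smul]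
      congr 1
      field_simp
    · intro g
      rw [Matrix.det_smul, norm_mul, norm_pow, hc, hdet]
      norm_num
    · intro R
      have : {g | hs (c • ι g) ≤ R} = {g | ∑ i, ∑ j, ‖ι g i j‖ ^ 2 ≤ R} := by
        ext g
        rw [Set.mem_ofPred_eq, hs_smul, hc]
        simp [hs]
      rw [this]
      exact hfin R
  obtain ⟨S, κ, d, hd, h3, h4, h5, h6, h7⟩ := am hι Q hε
  refine ⟨S, κ, d, hd, h3, h4, h5, fun h hh k k' hk hk' htr => h6 h hh k k' hk hk' ?_, h7⟩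
  intro i j hij
  rw [Matrix.mul_smul, Matrix.smul_mul, Matrix.smul_apply, norm_smul, hc, one_mul]
  exact htr i j hij

/-- PROP AM for a homomorphism to the special linear group. -/
theorem am_SL {ι : G →* Matrix.SpecialLinearGroup (Fin 3) ℂ}
    (hfin : ∀ R : ℝ, {g | ∑ i, ∑ j, ‖(ι g : M3) i j‖ ^ 2 ≤ R}.Finite) (Q : Finset G) {ε : ℝ}
    (hε : 0 < ε) :
    ∃ (S : Finset G) (κ : M3 → G → ℝ) (d : ℝ), 0 < d ∧ (∀ k t, 0 ≤ κ k t) ∧
      (∀ k t, t ∉ S → κ k t = 0) ∧ (∀ k, star k * k = 1 → ∑ t ∈ S, κ k t = 1) ∧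
      (∀ h ∈ Q, ∀ k k' : M3, star k * k = 1 → star k' * k' = 1 →
        (∀ i j : Fin 3, j < i → ‖(star k * (ι h : M3) * k') i j‖ ≤ d) →
        ∀ s : Finset G, ∑ t ∈ s, |κ k t - κ k' (h⁻¹ * t)| ≤ ε) ∧
      (∀ ε' : ℝ, 0 < ε' → ∃ d' : ℝ, 0 < d' ∧ ∀ k k' : M3, star k * k = 1 → star k' * k' = 1 →
        (∀ i j : Fin 3, j < i → ‖(star k * k') i j‖ ≤ d') →
        ∑ t ∈ S, |κ k t - κ k' t| ≤ ε') := by
  have hι : Rep G (fun g => (ι g : M3)) := by
    refine ⟨?_, ?_, ?_, ?_⟩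
    · simp
    · intro g h
      exact ⟨1, by simp, by simp⟩
    · intro g
      simp
    · intro R
      exact hfin R
  exact am hι Q hε

end Pool.Agent.Helper35.AM
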